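import Pool.Agent.P8H60.NR.Gap

/-! # No linear recurrences in runs of normalised gaps -/

set_option autoImplicit false

namespace Pool.Agent.P8H60.NR

open Finset Filter Topology
open SG (ord NZ)
open LG (dlt)

/-- summation by parts: coefficients for the ordinates from the coefficients for the gaps -/
lemma by_parts {d : ℕ} (a : Fin (d + 1) → ℝ) (ha : ∃ l, 1 ≤ |a l|) :
    ∃ (A : ℝ) (α : Fin (d + 2) → ℝ), 1 ≤ A ∧ (∀ l, |a l| ≤ A) ∧ (∃ l, 1 ≤ |α l|) ∧
      ∀ x : ℕ → ℝ, ∑ l : Fin (d + 2), α l * x l =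
        (d + 2) / A * ∑ l : Fin (d + 1), a l * (x (l + 1) - x l) := by
  obtain ⟨l₀, -, hl₀⟩ := exists_max_image (univ : Finset (Fin (d + 1))) (fun l => |a l|)
    univ_nonempty
  obtain ⟨l₁, hl₁⟩ := ha
  set A := |a l₀| with hA
  have hA1 : 1 ≤ A := hl₁.trans (hl₀ l₁ (mem_univ _))
  have hA0 : 0 < A := by linarith
  set e : ℕ → ℝ := fun i => if h : i < d + 1 then a ⟨i, h⟩ else 0 with he
  have hel : ∀ l : Fin (d + 1), e l = a l := fun l => by
    simp only [he]
    rw [dif_pos l.2]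
  have hed : e (d + 1) = 0 := by simp [he]
  set β : ℕ → ℝ := fun i => (d + 2) / A * ((if i = 0 then 0 else e (i - 1)) - e i) with hβ
  refine ⟨A, fun l => β l, hA1, fun l => hl₀ l (mem_univ _), ?_, fun x => ?_⟩
  · by_contra hcon
    push Not at hcon
    have hd2 : (0 : ℝ) < d + 2 := by positivity
    have hstep : ∀ i : ℕ, i < d + 2 → |(if i = 0 then 0 else e (i - 1)) - e i| < A / (d + 2) := by
      intro i hi
      have h1 := hcon ⟨i, hi⟩
      simp only [hβ] at h1
      rw [abs_mul, abs_of_pos (by positivity : (0 : ℝ) < (d + 2) / A), div_mul_eq_mul_div,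
        div_lt_iff₀ hA0, one_mul] at h1
      rw [lt_div_iff₀ hd2]
      linarith
    have hind : ∀ i : ℕ, i < d + 2 → |e i| < (i + 1) * (A / (d + 2)) := by
      intro i
      induction i with
      | zero =>
        intro hi
        have h1 := hstep 0 hi
        rw [if_pos rfl, zero_sub, abs_neg] at h1
        simpa using h1
      | succ i ih =>
        intro hi
        have h1 := hstep (i + 1) hi
        have h2 := ih (by omega)
        rw [if_neg (by omega), Nat.add_sub_cancel] at h1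
        have h3 : |e (i + 1)| ≤ |e i| + |e i - e (i + 1)| := by
          have := abs_sub_abs_le_abs_sub (e (i + 1)) (e i)
          rw [abs_sub_comm] at this
          linarith
        push_cast
        linarith
    have h1 := hind l₀ (by omega)
    rw [hel, ← hA] at h1
    have h2 : ((l₀ : ℕ) : ℝ) + 1 ≤ d + 2 := by
      have : (l₀ : ℕ) + 1 ≤ d + 2 := by omega
      exact_mod_cast this
    have h3 : (((l₀ : ℕ) : ℝ) + 1) * (A / (d + 2)) ≤ (d + 2) * (A / (d + 2)) :=
      mul_le_mul_of_nonneg_right h2 (by positivity)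
    rw [mul_div_cancel₀ _ hd2.ne'] at h3
    linarith
  · rw [← Finset.sum_range (fun i => β i * x i)]
    have h1 : ∑ l : Fin (d + 1), a l * (x (l + 1) - x l) =
        ∑ i ∈ range (d + 1), e i * (x (i + 1) - x i) := by
      rw [Finset.sum_range]
      exact sum_congr rfl fun l _ => by rw [hel]
    rw [h1, mul_sum]
    have h2 : ∑ i ∈ range (d + 2), β i * x i =
        ∑ i ∈ range (d + 2), (d + 2) / A * ((if i = 0 then 0 else e (i - 1)) * x i) -
        ∑ i ∈ range (d + 2), (d + 2) / A * (e i * x i) := by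
      rw [← sum_sub_distrib]
      refine sum_congr rfl fun i _ => ?_
      simp only [hβ]
      ring
    rw [h2, Finset.sum_range_succ' (fun i => (d + 2) / A * ((if i = 0 then 0 else e (i - 1)) * x i)),
      Finset.sum_range_succ (fun i => (d + 2) / A * (e i * x i)), hed]
    simp only [if_true, zero_mul, mul_zero, add_zero]
    rw [← sum_sub_distrib]
    refine sum_congr rfl fun i _ => ?_
    rw [if_neg (by omega), Nat.add_sub_cancel]
    ring

/-- from a relation between gaps to a relation between ordinates -/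
lemma rel_of_drel (d L : ℕ) {c₁ : ℝ} (hc₁ : 0 < c₁) : ∃ c : ℝ, 0 < c ∧ ∃ n₀ : ℕ, 1 ≤ n₀ ∧
    ∀ n : ℕ, n₀ ≤ n → ord (n + (L + d + 1)) - ord n ≤ 1 → DRel d L c n → Rel (d + 1) L c₁ n := by
  have hpi := Real.pi_gt_three
  obtain ⟨c, hc⟩ : ∃ c : ℝ, c = c₁ / (4 * Real.pi * (d + 2)) := ⟨_, rfl⟩
  have hc0 : 0 < c := by rw [hc]; positivity
  obtain ⟨n0, hn0⟩ := (SG.ord_tendsto.eventually_ge_atTop
    (max 3 ((d + 1) / c))).exists_forall_of_atTop
  refine ⟨c, hc0, max 1 n0, le_max_left _ _, fun n hn hfar hrel => ?_⟩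
  have hn1 : 1 ≤ n := (le_max_left _ _).trans hn
  have hx := hn0 n ((le_max_right _ _).trans hn)
  set x := ord n with hxd
  have hx3 : 3 ≤ x := (le_max_left _ _).trans hx
  have hxc : (d + 1) / c ≤ x := (le_max_right _ _).trans hx
  have hlx : 1 ≤ Real.log x := by
    rw [Real.le_log_iff_exp_le (by linarith)]
    linarith [Real.exp_one_lt_d9]
  obtain ⟨a, b, ha, hb, u, hu, hj⟩ := hrel
  obtain ⟨A, α, hA1, hA, hα, hsum⟩ := by_parts a ha
  have hA0 : 0 < A := by linarith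
  set Λ := (Real.log x + 1) / (2 * Real.pi) with hΛ
  have hΛ0 : 0 < Λ := by positivity
  refine ⟨α, Fin.snoc b 0, hα, ?_, fun j => (d + 2) / (A * Λ) * u j, fun j hjL => ?_, fun j hjL => ?_⟩
  · intro h
    apply hb
    funext l
    have := congrFun h l.castSucc
    rwa [Fin.snoc_castSucc] at this
  · rw [Fin.sum_univ_castSucc]
    simp only [Fin.snoc_castSucc, Fin.snoc_last, Fin.val_castSucc, zero_mul, add_zero]
    have h1 := hu j (by omega)
    calc ∑ l : Fin (d + 1), b l * ((d + 2) / (A * Λ) * u (j + l)) =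
        (d + 2) / (A * Λ) * ∑ l : Fin (d + 1), b l * u (j + l) := by
          rw [mul_sum]
          exact sum_congr rfl fun l _ => by ring
      _ = 0 := by rw [h1, mul_zero]
  · have h1 := hsum (fun l => ord (n + j + l))
    rw [h1]
    have h2 := hj j hjL
    have h3 : |∑ l : Fin (d + 1), a l * (dlt (n + j + l) -
        Λ * (ord (n + j + (l + 1)) - ord (n + j + l)))| ≤ (d + 1) * (A * (1 / x)) := by
      refine (abs_sum_le_sum_abs _ _).trans ?_
      have h4 : ∀ l ∈ (univ : Finset (Fin (d + 1))), |a l * (dlt (n + j + l) -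
          Λ * (ord (n + j + (l + 1)) - ord (n + j + l)))| ≤ A * (1 / x) := by
        intro l _
        rw [abs_mul]
        apply mul_le_mul (hA l) _ (abs_nonneg _) hA0.le
        refine dlt_close (by linarith) (by omega) ?_ ?_
        · rw [Nat.add_assoc]
          exact ord_mono hn1 (Nat.le_add_right _ _)
        · have h5 : ord (n + j + l + 1) ≤ ord (n + (L + d + 1)) := ord_mono (by omega) (by
            have := l.2
            omega)
          linarith
      refine (sum_le_sum h4).trans ?_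
      rw [sum_const, card_univ, Fintype.card_fin, nsmul_eq_mul]
      push_cast
      exact le_rfl
    have h5 : ∑ l : Fin (d + 1), a l * (dlt (n + j + l) -
        Λ * (ord (n + j + (l + 1)) - ord (n + j + l))) =
        ∑ l : Fin (d + 1), a l * dlt (n + j + l) -
        Λ * ∑ l : Fin (d + 1), a l * (ord (n + j + (l + 1)) - ord (n + j + l)) := by
      rw [mul_sum, ← sum_sub_distrib]
      exact sum_congr rfl fun l _ => by ring
    rw [h5] at h3
    set S := ∑ l : Fin (d + 1), a l * (ord (n + j + (l + 1)) - ord (n + j + l)) with hS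
    set W := ∑ l : Fin (d + 1), a l * dlt (n + j + l) with hW
    have h6 : |Λ * S - u j| ≤ (d + 1) * (A * (1 / x)) + c := by
      have e : Λ * S - u j = (W - u j) - (W - Λ * S) := by ring
      rw [e]
      exact (abs_sub _ _).trans (by linarith)
    have h7 : (d + 2) / A * S - (d + 2) / (A * Λ) * u j = (d + 2) / (A * Λ) * (Λ * S - u j) := by
      field_simp
    rw [h7, abs_mul, abs_of_pos (by positivity)]
    have h8 : (d + 1) * (A * (1 / x)) + c ≤ 2 * A * c := by
      have h9 : (d + 1) / x ≤ c := by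
        rw [div_le_iff₀ (by linarith)]
        rw [div_le_iff₀ hc0] at hxc
        linarith
      have h10 : (d + 1) * (A * (1 / x)) = A * ((d + 1) / x) := by ring
      rw [h10]
      have h11 : A * ((d + 1) / x) ≤ A * c := mul_le_mul_of_nonneg_left h9 hA0.le
      nlinarith
    calc (d + 2) / (A * Λ) * |Λ * S - u j| ≤ (d + 2) / (A * Λ) * (2 * A * c) :=
          mul_le_mul_of_nonneg_left (h6.trans h8) (by positivity)
      _ = c₁ / (Real.log x + 1) := by
          rw [hc, hΛ]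
          field_simp
          ring
      _ ≤ c₁ / Real.log x := div_le_div_of_nonneg_left hc₁.le (by linarith) (by linarith)

/-- **almost no run of normalised gaps satisfies a linear recurrence** -/
theorem fin_gap (d : ℕ) {η : ℝ} (hη : 0 < η) : ∃ (L : ℕ) (c : ℝ), 0 < c ∧ ∃ N₀ : ℕ,
    ∀ N : ℕ, N₀ ≤ N → (({n : ℕ | 1 ≤ n ∧ n ≤ N ∧ DRel d L c n} : Set ℕ).ncard : ℝ) ≤ η * N := by
  classical
  obtain ⟨L, c₁, hc₁, N₁, h1⟩ := fin_nr (d + 1) (η := η / 4) (by positivity)
  obtain ⟨c, hc, n₀, hn₀, h2⟩ := rel_of_drel d L hc₁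
  obtain ⟨N₂, h3⟩ := few_far (L + d + 1) (η := η / 4) (by positivity)
  refine ⟨L, c, hc, max (max N₁ N₂) ⌈2 * n₀ / η⌉₊, fun N hN => ?_⟩
  have g1 := h1 N (((le_max_left _ _).trans (le_max_left _ _)).trans hN)
  have g2 := h3 N (((le_max_right _ _).trans (le_max_left _ _)).trans hN)
  have g3 : 2 * (n₀ : ℝ) / η ≤ N :=
    (Nat.le_ceil _).trans (by exact_mod_cast (le_max_right _ _).trans hN)
  rw [div_le_iff₀ hη] at g3
  have hfin : {n : ℕ | 1 ≤ n ∧ n ≤ N ∧ Rel (d + 1) L c₁ n}.Finite :=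
    (Set.finite_Iic N).subset fun n hn => hn.2.1
  have hsub : ({n : ℕ | 1 ≤ n ∧ n ≤ N ∧ DRel d L c n} : Set ℕ) ⊆
      ({n : ℕ | 1 ≤ n ∧ n ≤ N ∧ Rel (d + 1) L c₁ n} ∪
        (((Icc 1 N).filter (fun n => 1 < ord (n + (L + d + 1)) - ord n) : Finset ℕ) : Set ℕ)) ∪
      ((Icc 1 n₀ : Finset ℕ) : Set ℕ) := by
    rintro n ⟨a1, a2, a3⟩
    rcases Nat.lt_or_ge n₀ n with h | h
    · left
      by_cases h' : 1 < ord (n + (L + d + 1)) - ord n
      · right
        rw [mem_coe, mem_filter, mem_Icc]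
        exact ⟨⟨a1, a2⟩, h'⟩
      · left
        exact ⟨a1, a2, h2 n h.le (not_lt.1 h') a3⟩
    · right
      rw [mem_coe, mem_Icc]
      exact ⟨a1, h⟩
  have hfin2 : ((({n : ℕ | 1 ≤ n ∧ n ≤ N ∧ Rel (d + 1) L c₁ n} ∪
        (((Icc 1 N).filter (fun n => 1 < ord (n + (L + d + 1)) - ord n) : Finset ℕ) : Set ℕ)) ∪
      ((Icc 1 n₀ : Finset ℕ) : Set ℕ)) : Set ℕ).Finite :=
    (hfin.union (finite_toSet _)).union (finite_toSet _)
  have g4 := (Set.ncard_le_ncard hsub hfin2).trans ((Set.ncard_union_le _ _).trans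
    (Nat.add_le_add_right (Set.ncard_union_le _ _) _))
  rw [Set.ncard_coe_finset, Set.ncard_coe_finset, Nat.card_Icc, Nat.add_sub_cancel] at g4
  have g5 : (({n : ℕ | 1 ≤ n ∧ n ≤ N ∧ DRel d L c n} : Set ℕ).ncard : ℝ) ≤
      ({n : ℕ | 1 ≤ n ∧ n ≤ N ∧ Rel (d + 1) L c₁ n}.ncard : ℝ) +
      (((Icc 1 N).filter (fun n => 1 < ord (n + (L + d + 1)) - ord n)).card : ℝ) + n₀ := by
    exact_mod_cast g4
  have g6 : (({n : ℕ | 1 ≤ n ∧ n ≤ N ∧ Rel (d + 1) L c₁ n} : Set ℕ).ncard : ℝ) ≤ η / 4 * N := g1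
  linarith

/-- if a relation holds at most places of a run, then many of the short runs in it are exceptional -/
lemma many_bad' {d L₁ L n : ℕ} {c₁ c : ℝ} (hcc : c ≤ c₁)
    (hc4 : c * (4 * (L₁ + 1)) ≤ 1) (hL : 4 * L₁ + 1 ≤ L) (a b : Fin (d + 1) → ℝ)
    (ha : ∃ l, 1 ≤ |a l|) (hb : b ≠ 0) (u : ℕ → ℝ)
    (hu : ∀ j, j + d ≤ L → ∑ l : Fin (d + 1), b l * u (j + l) = 0)
    (hF : (({j : ℕ | j ≤ L ∧ c <
      |∑ l : Fin (d + 1), a l * dlt (n + j + l) - u j|} : Set ℕ).ncard : ℝ) < c * L)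
    (B : ℕ → Prop) [DecidablePred B] (hB : ∀ m, DRel d L₁ c₁ m → B m) :
    L + 1 ≤ 2 * ((Icc n (n + L)).filter B).card := by
  classical
  by_contra hcon
  push Not at hcon
  set F := (range (L + 1)).filter (fun j => c <
      |∑ l : Fin (d + 1), a l * dlt (n + j + l) - u j|) with hFd
  have hFe : ({j : ℕ | j ≤ L ∧ c <
      |∑ l : Fin (d + 1), a l * dlt (n + j + l) - u j|} : Set ℕ) = (F : Set ℕ) := by
    ext j
    simp only [hFd, Set.mem_ofPred_eq, coe_filter, mem_range, Nat.lt_succ_iff]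
  rw [hFe, Set.ncard_coe_finset] at hF
  set S := (range (L + 1 - L₁)).filter (fun k => ¬ B (n + k)) with hS
  have hex : ∀ k ∈ S, ∃ i ≤ L₁, k + i ∈ F := by
    intro k hk
    rw [hS, mem_filter, mem_range] at hk
    obtain ⟨hk1, hk2⟩ := hk
    have h3 : ¬ DRel d L₁ c₁ (n + k) := fun h => hk2 (hB _ h)
    by_contra hno
    push Not at hno
    apply h3
    refine ⟨a, b, ha, hb, fun i => u (k + i), fun j hj => ?_, fun j hj => ?_⟩
    · have := hu (k + j) (by omega)
      refine Eq.trans ?_ this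
      exact sum_congr rfl fun l _ => by rw [Nat.add_assoc]
    · have h4 := hno j hj
      rw [hFd, mem_filter, mem_range] at h4
      push Not at h4
      have h5 := h4 (by omega)
      have e1 : n + k + j = n + (k + j) := by omega
      rw [e1]
      exact h5.trans hcc
  choose! f hf1 hf2 using hex
  have h1 : S.card ≤ (L₁ + 1) * F.card := by
    refine card_le_mul_card_image_of_maps_to (f := fun k => k + f k) (fun k hk => hf2 k hk) _
      fun j hj => ?_
    have h2 : S.filter (fun k => k + f k = j) ⊆ Icc (j - L₁) j := by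
      intro k hk
      rw [mem_filter] at hk
      rw [mem_Icc]
      have := hf1 k hk.1
      omega
    refine (card_le_card h2).trans ?_
    rw [Nat.card_Icc]
    omega
  have h2 : L + 1 - L₁ ≤ S.card + ((Icc n (n + L)).filter B).card := by
    have h3 := card_filter_add_card_filter_not (s := range (L + 1 - L₁)) (fun k => ¬ B (n + k))
    rw [card_range, ← hS] at h3
    have h4 : ((range (L + 1 - L₁)).filter (fun k => ¬ ¬ B (n + k))).card ≤
        ((Icc n (n + L)).filter B).card := by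
      refine card_le_card_of_injOn (fun k => n + k) (fun k hk => ?_) (fun x _ y _ h => ?_)
      · rw [mem_coe, mem_filter, mem_range] at hk
        rw [mem_coe, mem_filter, mem_Icc]
        refine ⟨⟨?_, ?_⟩, not_not.1 hk.2⟩
        · show n ≤ n + k
          omega
        · show n + k ≤ n + L
          omega
      · simpa using h
    omega
  have h3 : L + 1 - 2 * L₁ ≤ 2 * ((L₁ + 1) * F.card) := by omega
  have h4 : (L : ℝ) + 1 - 2 * L₁ ≤ 2 * ((L₁ + 1) * F.card) := by
    have : L + 1 ≤ 2 * ((L₁ + 1) * F.card) + 2 * L₁ := by omega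
    have h5 : ((L + 1 : ℕ) : ℝ) ≤ ((2 * ((L₁ + 1) * F.card) + 2 * L₁ : ℕ) : ℝ) := by exact_mod_cast this
    push_cast at h5
    linarith
  have h5 : (L₁ + 1 : ℝ) * F.card ≤ (L₁ + 1) * (c * L) :=
    mul_le_mul_of_nonneg_left hF.le (by positivity)
  have h6 : (L₁ + 1 : ℝ) * (c * L) ≤ L / 4 := by
    have h7 : c * (4 * (L₁ + 1)) * L ≤ 1 * L := mul_le_mul_of_nonneg_right hc4 (Nat.cast_nonneg L)
    linarith
  have h7 : (4 * (L₁ : ℝ) + 1) ≤ L := by exact_mod_cast hL
  linarith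

/-- **for almost all `n` every linear recurrence fails at a positive proportion of the places of all
long runs of normalised gaps starting with the `n`-th one** -/
theorem dens_gap (d : ℕ) {η : ℝ} (hη : 0 < η) : ∃ c : ℝ, 0 < c ∧ ∃ L₀ N₀ : ℕ, ∀ N : ℕ, N₀ ≤ N →
    (({n : ℕ | 1 ≤ n ∧ n ≤ N ∧ ∃ L : ℕ, L₀ ≤ L ∧ L ≤ N ∧ ∃ a b : Fin (d + 1) → ℝ,
      (∃ l, 1 ≤ |a l|) ∧ b ≠ 0 ∧ ∃ u : ℕ → ℝ,
      (∀ j, j + d ≤ L → ∑ l : Fin (d + 1), b l * u (j + l) = 0) ∧
      (({j : ℕ | j ≤ L ∧ c <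
        |∑ l : Fin (d + 1), a l * dlt (n + j + l) - u j|} : Set ℕ).ncard : ℝ) < c * L} :
        Set ℕ).ncard : ℝ) ≤ η * N := by
  classical
  obtain ⟨L₁, c₁, hc₁, N₁, h⟩ := fin_gap d (η := η / 4) (by positivity)
  obtain ⟨c, hc⟩ : ∃ c : ℝ, c = min c₁ (1 / (4 * (L₁ + 1))) := ⟨_, rfl⟩
  have hc0 : 0 < c := by rw [hc]; exact lt_min hc₁ (by positivity)
  have hcc : c ≤ c₁ := by rw [hc]; exact min_le_left _ _
  have hc4 : c * (4 * (L₁ + 1)) ≤ 1 := by
    have : c ≤ 1 / (4 * (L₁ + 1)) := by rw [hc]; exact min_le_right _ _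
    rwa [le_div_iff₀ (by positivity)] at this
  refine ⟨c, hc0, 4 * L₁ + 1, N₁, fun N hN => ?_⟩
  have g1 := h (2 * N) (by omega)
  set E : ℕ → Prop := fun n => ∃ L : ℕ, 4 * L₁ + 1 ≤ L ∧ L ≤ N ∧ ∃ a b : Fin (d + 1) → ℝ,
      (∃ l, 1 ≤ |a l|) ∧ b ≠ 0 ∧ ∃ u : ℕ → ℝ,
      (∀ j, j + d ≤ L → ∑ l : Fin (d + 1), b l * u (j + l) = 0) ∧
      (({j : ℕ | j ≤ L ∧ c <
        |∑ l : Fin (d + 1), a l * dlt (n + j + l) - u j|} : Set ℕ).ncard : ℝ) < c * L with hE
  have hEe : ({n : ℕ | 1 ≤ n ∧ n ≤ N ∧ E n} : Set ℕ) = (((Icc 1 N).filter E : Finset ℕ) : Set ℕ) := by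
    ext n
    simp only [Set.mem_ofPred_eq, coe_filter, mem_Icc, and_assoc]
  show (({n : ℕ | 1 ≤ n ∧ n ≤ N ∧ E n} : Set ℕ).ncard : ℝ) ≤ η * N
  rw [hEe, Set.ncard_coe_finset]
  have g2 := maxi (fun m => DRel d L₁ c₁ m) E N (fun n _ _ hn => by
    obtain ⟨L, hL1, hL2, a, b, ha, hb, u, hu, hF⟩ := hn
    exact ⟨L, hL2, many_bad' hcc hc4 hL1 a b ha hb u hu hF _ (fun m hm => hm)⟩)
  have h3 : ({n : ℕ | 1 ≤ n ∧ n ≤ 2 * N ∧ DRel d L₁ c₁ n} : Set ℕ) =
      (((Icc 1 (2 * N)).filter (fun m => DRel d L₁ c₁ m) : Finset ℕ) : Set ℕ) := by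
    ext n
    simp only [Set.mem_ofPred_eq, coe_filter, mem_Icc, and_assoc]
  rw [h3, Set.ncard_coe_finset] at g1
  have g4 : ((((Icc 1 N).filter E).card : ℕ) : ℝ) ≤
      ((2 * ((Icc 1 (2 * N)).filter (fun m => DRel d L₁ c₁ m)).card : ℕ) : ℝ) := by
    exact_mod_cast g2
  push_cast at g1 g4
  linarith

end Pool.Agent.P8H60.NR
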