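import Pool.Agent.P8H60.NR.Dens
import Pool.Agent.W54.TCF.NT
import Pool.Agent.R320.CL.Asm
import Pool.Agent.H382L.GapUnif
import Pool.Agent.H177R3.LatD
import Pool.Agent.H345R2.A3.Num

/-! # The same for the normalised gaps -/

set_option autoImplicit false

namespace Pool.Agent.P8H60.NR

open Finset Filter Topology
open SG (ord NZ)
open LG (dlt)

/-- the `N`-th ordinate is `o(N)` -/
lemma ord_small {ε : ℝ} (hε : 0 < ε) : ∃ N₀ : ℕ, ∀ N : ℕ, N₀ ≤ N → ord N ≤ ε * N := by
  have hpi := Real.pi_pos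
  obtain ⟨T2, hT2, hlo⟩ := Pool.Agent.W54.TCF.NT_asymp' (1 / 2) (by norm_num)
  have hlog := Real.tendsto_log_atTop
  have ev1 : ∀ᶠ T : ℝ in atTop, 8 * Real.pi / ε + Real.log 2 ≤ Real.log T := hlog.eventually_ge_atTop _
  have ev2 : ∀ᶠ T : ℝ in atTop, 2 * T2 ≤ T := eventually_ge_atTop _
  obtain ⟨N1, hN1⟩ := (SG.ord_tendsto.eventually (ev1.and ev2)).exists_forall_of_atTop
  refine ⟨max N1 1, fun N hN => ?_⟩
  obtain ⟨e1, e2⟩ := hN1 N ((le_max_left _ _).trans hN)
  have hN0 : 1 ≤ N := (le_max_right _ _).trans hN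
  set T := ord N with hT
  have hTpos : 0 < T := by linarith
  have a1 : NZ (T / 2) < N := by
    by_contra hcon
    push Not at hcon
    have := (SG.ord_le_iff hN0 _).mpr hcon
    linarith
  have a3 := (hlo (T / 2) (by linarith)).1
  rw [← Pool.Agent.R320.CL.NZ_NN] at a3
  have a4 : Real.log (T / 2) = Real.log T - Real.log 2 := Real.log_div hTpos.ne' (by norm_num)
  have a5 : (NZ (T / 2) : ℝ) ≤ N := by exact_mod_cast a1.le
  have a6 : 8 * Real.pi / ε ≤ Real.log (T / 2) := by rw [a4]; linarith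
  have a7 : (1 - 1 / 2) * (T / 2 / (2 * Real.pi) * (8 * Real.pi / ε)) ≤ N := by
    refine le_trans ?_ (a3.trans a5)
    apply mul_le_mul_of_nonneg_left _ (by norm_num)
    apply mul_le_mul_of_nonneg_left a6
    positivity
  have a8 : (1 - 1 / 2) * (T / 2 / (2 * Real.pi) * (8 * Real.pi / ε)) = T / ε := by
    field_simp
    ring
  rw [a8, div_le_iff₀ hε] at a7
  linarith

/-- `K` consecutive ordinates are mostly within distance one -/
lemma few_far (K : ℕ) {η : ℝ} (hη : 0 < η) : ∃ N₀ : ℕ, ∀ N : ℕ, N₀ ≤ N →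
    (((Icc 1 N).filter (fun n => 1 < ord (n + K) - ord n)).card : ℝ) ≤ η * N := by
  obtain ⟨N₀, h⟩ := ord_small (ε := η / (2 * (K + 1))) (by positivity)
  refine ⟨max N₀ K, fun N hN => ?_⟩
  have hN1 : N₀ ≤ N := (le_max_left _ _).trans hN
  have hN2 : K ≤ N := (le_max_right _ _).trans hN
  have key : ∀ M : ℕ, ∑ n ∈ Icc 1 M, (ord (n + K) - ord n) =
      ∑ m ∈ range K, ord (M + 1 + m) - ∑ m ∈ range K, ord (1 + m) := by
    intro M
    induction M with
    | zero => simp
    | succ M ih =>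
      rw [Finset.sum_Icc_succ_top (by omega), ih]
      have h1 : ∑ m ∈ range K, ord (M + 1 + 1 + m) =
          ∑ m ∈ range (K + 1), ord (M + 1 + m) - ord (M + 1) := by
        rw [Finset.sum_range_succ' (fun m => ord (M + 1 + m))]
        simp only [Nat.add_zero, add_sub_cancel_right]
        exact sum_congr rfl fun m _ => by congr 1; omega
      rw [h1, Finset.sum_range_succ]
      ring
  have h1 : (((Icc 1 N).filter (fun n => 1 < ord (n + K) - ord n)).card : ℝ) ≤
      ∑ n ∈ Icc 1 N, (ord (n + K) - ord n) := by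
    have h2 : (((Icc 1 N).filter (fun n => 1 < ord (n + K) - ord n)).card : ℝ) ≤
        ∑ n ∈ (Icc 1 N).filter (fun n => 1 < ord (n + K) - ord n), (ord (n + K) - ord n) := by
      calc (((Icc 1 N).filter (fun n => 1 < ord (n + K) - ord n)).card : ℝ) =
          ∑ n ∈ (Icc 1 N).filter (fun n => 1 < ord (n + K) - ord n), (1 : ℝ) := by simp
        _ ≤ _ := sum_le_sum fun n hn => (mem_filter.1 hn).2.le
    refine h2.trans (sum_le_sum_of_subset_of_nonneg (filter_subset _ _) fun n hn _ => ?_)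
    have := ord_mono (mem_Icc.1 hn).1 (Nat.le_add_right n K)
    linarith
  rw [key] at h1
  have h3 : ∑ m ∈ range K, ord (N + 1 + m) ≤ ∑ m ∈ range K, η / (2 * (K + 1)) * (2 * N + 1) := by
    refine sum_le_sum fun m hm => ?_
    rw [mem_range] at hm
    refine (h (N + 1 + m) (by omega)).trans ?_
    apply mul_le_mul_of_nonneg_left _ (by positivity)
    have : N + 1 + m ≤ 2 * N + 1 := by omega
    exact_mod_cast this
  have h4 : 0 ≤ ∑ m ∈ range K, ord (1 + m) := sum_nonneg fun m _ => (SG.ord_pos (by omega)).le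
  rw [sum_const, card_range, nsmul_eq_mul] at h3
  rcases Nat.eq_zero_or_pos N with h0 | h0
  · have : (Icc 1 N).filter (fun n => 1 < ord (n + K) - ord n) = ∅ := by
      rw [h0]
      simp
    rw [this, h0]
    simp
  · have h5 : (K : ℝ) * (η / (2 * (K + 1)) * (2 * N + 1)) ≤ η * N := by
      have hN1' : (1 : ℝ) ≤ N := by exact_mod_cast h0
      have hKN : (K : ℝ) ≤ N := by exact_mod_cast hN2
      have hK0 : (0 : ℝ) ≤ K := Nat.cast_nonneg K
      have e : (K : ℝ) * (η / (2 * (K + 1)) * (2 * N + 1)) =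
          η * (K * (2 * N + 1) / (2 * (K + 1))) := by
        field_simp
      rw [e]
      apply mul_le_mul_of_nonneg_left _ hη.le
      rw [div_le_iff₀ (by positivity)]
      nlinarith
    linarith

/-- the relation for the gaps holds along the run `[m, m + L]` up to `c` -/
def DRel (d L : ℕ) (c : ℝ) (m : ℕ) : Prop :=
  ∃ a b : Fin (d + 1) → ℝ, (∃ l, 1 ≤ |a l|) ∧ b ≠ 0 ∧ ∃ u : ℕ → ℝ,
      (∀ j, j + d ≤ L → ∑ l : Fin (d + 1), b l * u (j + l) = 0) ∧
      ∀ j, j ≤ L → |∑ l : Fin (d + 1), a l * dlt (m + j + l) - u j| ≤ c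

/-- the normalised gaps are proportional to the gaps up to `1 / x` -/
lemma dlt_close {x : ℝ} (hx1 : 1 ≤ x) {n : ℕ} (hn : 1 ≤ n) (h1 : x ≤ ord n) (h2 : ord (n + 1) ≤ x + 1) :
    |dlt n - (Real.log x + 1) / (2 * Real.pi) * (ord (n + 1) - ord n)| ≤ 1 / x := by
  have hpi := Real.pi_gt_three
  have hst : ord n ≤ ord (n + 1) := ord_mono hn (Nat.le_succ n)
  have hx : 0 < ord n := SG.ord_pos hn
  have q1 := H177.Lat.xlog_low hx hst
  have q2 := H370.A3.xlog_aux hx hst
  have hg0 : 0 ≤ ord (n + 1) - ord n := sub_nonneg.2 hst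
  have hg1 : ord (n + 1) - ord n ≤ 1 := by linarith
  have l1 : Real.log x ≤ Real.log (ord n) := Real.log_le_log (by linarith) h1
  have l2 : Real.log (ord (n + 1)) ≤ Real.log x + 1 / x := by
    have h3 : Real.log (ord (n + 1)) ≤ Real.log (x + 1) := Real.log_le_log (by linarith) h2
    have h4 : Real.log (x + 1) = Real.log x + Real.log (1 + 1 / x) := by
      rw [← Real.log_mul (by linarith) (by positivity)]
      congr 1
      field_simp
    have h5 : Real.log (1 + 1 / x) ≤ 1 / x := by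
      have := Real.log_le_sub_one_of_pos (show 0 < 1 + 1 / x by positivity)
      linarith
    linarith
  have e : dlt n - (Real.log x + 1) / (2 * Real.pi) * (ord (n + 1) - ord n) =
      ((ord (n + 1) * Real.log (ord (n + 1)) - ord n * Real.log (ord n)) -
        (ord (n + 1) - ord n) * (Real.log x + 1)) / (2 * Real.pi) := by
    unfold LG.dlt
    field_simp
  have hx0 : 0 < 1 / x := by positivity
  have b1 : 0 ≤ (ord (n + 1) * Real.log (ord (n + 1)) - ord n * Real.log (ord n)) -
        (ord (n + 1) - ord n) * (Real.log x + 1) := by nlinarith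
  have b2 : (ord (n + 1) * Real.log (ord (n + 1)) - ord n * Real.log (ord n)) -
        (ord (n + 1) - ord n) * (Real.log x + 1) ≤ 1 / x := by nlinarith
  rw [e, abs_of_nonneg (by positivity), div_le_iff₀ (by positivity)]
  nlinarith

end Pool.Agent.P8H60.NR
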