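import Pool.Agent.P8H60.NR.Run
import Pool.Agent.R846.VS.J

/-! # The theorem for the ordinates up to `N` -/

set_option autoImplicit false

open Filter Topology MeasureTheory Set

namespace Pool.Agent.P8H60.NR

open SG (ord NZ)
open Pool.Agent.R846.UL (cn cn_eq)
open Pool.Agent.R846.VS (palm_unif)

/-- one dyadic block -/
theorem blk_nr (hA : S_A) (hP : S_P) (hB : S_B) (d : ℕ) {ε : ℝ} (hε : 0 < ε) (hε1 : ε ≤ 1) :
    ∃ (L : ℕ) (c T₀ : ℝ), 0 < c ∧ ∀ T : ℝ, T₀ ≤ T → ∀ (E : ℕ → Prop) [DecidablePred E],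
    (∀ n, E n → ∃ α : ℕ → ℝ, (∃ l ≤ d, 1 ≤ |α l|) ∧
      ∀ j ≤ L, |∑ l ∈ Finset.range (d + 1), α l * ord (n + (j + l))| ≤ c / Real.log (ord n)) →
    (((Finset.Ioc (NZ T) (NZ (2 * T))).filter E).card : ℝ) ≤ ε * (T * Real.log T / (2 * Real.pi)) := by
  obtain ⟨S', T1, hT1, hpalm⟩ := palm_unif hε hε1
  obtain ⟨L₁, c, T₀, hc, hrun⟩ := run_nr hA hP hB d (η := ε / (8 * (S' + 1))) (by positivity)
  refine ⟨L₁ + S', c, max T₀ T1, hc, fun T hT E _ hE => ?_⟩
  have hTT0 : T₀ ≤ T := (le_max_left _ _).trans hT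
  have hTT1 : T1 ≤ T := (le_max_right _ _).trans hT
  have hT10 : 10 ≤ T := hT1.trans hTT1
  have hlogT : 0 < Real.log T := Real.log_pos (by linarith)
  refine hpalm T hTT1 (fun _ => {t | ∃ α : ℕ → ℝ, (∃ l ≤ d, 1 ≤ |α l|) ∧
      ∀ j ≤ L₁, |∑ l ∈ Finset.range (d + 1), α l * ord (NZ t + 1 + (j + l))| ≤ c / Real.log T}) E ?_ ?_
  · intro s _
    refine le_trans (measure_mono ?_) (hrun T hTT0)
    rintro t ⟨h8, h9⟩
    exact ⟨h9, h8⟩
  · intro n hn hnT s hs t _ _ hts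
    obtain ⟨α, hα, hj⟩ := hE n hn
    refine ⟨α, hα, fun j hjL => ?_⟩
    have h8 := hj (s + j) (by omega)
    have e1 : ∑ l ∈ Finset.range (d + 1), α l * ord (NZ t + 1 + (j + l)) =
        ∑ l ∈ Finset.range (d + 1), α l * ord (n + (s + j + l)) := by
      refine Finset.sum_congr rfl fun l _ => ?_
      have : NZ t + 1 + (j + l) = n + (s + j + l) := by omega
      rw [this]
    rw [e1]
    refine h8.trans ?_
    have h9 : T < ord n := by
      by_contra hcon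
      push Not at hcon
      have := (SG.ord_le_iff (by omega : 1 ≤ n) _).mp hcon
      omega
    have h10 : Real.log T ≤ Real.log (ord n) := Real.log_le_log (by linarith) h9.le
    exact div_le_div_of_nonneg_left hc.le hlogT h10

/-- **almost no run of ordinates satisfies a linear recurrence** -/
theorem ord_nr (hA : S_A) (hP : S_P) (hB : S_B) (d : ℕ) {η : ℝ} (hη : 0 < η) :
    ∃ (L : ℕ) (c : ℝ) (N₀ : ℕ), 0 < c ∧ ∀ N : ℕ, N₀ ≤ N →
    cn N {n | ∃ α : ℕ → ℝ, (∃ l ≤ d, 1 ≤ |α l|) ∧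
      ∀ j ≤ L, |∑ l ∈ Finset.range (d + 1), α l * ord (n + (j + l))| ≤ c / Real.log (ord n)} ≤
      η * N := by
  classical
  obtain ⟨e, he⟩ : ∃ e : ℝ, e = min (η / 2) 1 := ⟨_, rfl⟩
  have he0 : 0 < e := by rw [he]; exact lt_min (by positivity) one_pos
  have he1 : e ≤ 1 := by rw [he]; exact min_le_right _ _
  have heη : e ≤ η / 2 := by rw [he]; exact min_le_left _ _
  obtain ⟨N₁, hN₁, hasm⟩ := Pool.Agent.R320.CL.asm e he0 he1
  obtain ⟨L, c, T₀, hc, hblk⟩ := blk_nr hA hP hB d he0 he1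
  refine ⟨L, c, max N₁ ⌈Real.exp (2 * Real.log (max T₀ 1))⌉₊, hc, fun N hN => ?_⟩
  have h1 : N₁ ≤ N := (le_max_left _ _).trans hN
  have h2 : Real.exp (2 * Real.log (max T₀ 1)) ≤ N :=
    (Nat.le_ceil _).trans (by exact_mod_cast (le_max_right _ _).trans hN)
  have hNpos : (0 : ℝ) < N := lt_of_lt_of_le (Real.exp_pos _) h2
  have h3 : 2 * Real.log (max T₀ 1) ≤ Real.log N := by
    rw [Real.le_log_iff_exp_le hNpos]
    exact h2
  have g1 := hasm N h1 (fun n => ∃ α : ℕ → ℝ, (∃ l ≤ d, 1 ≤ |α l|) ∧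
      ∀ j ≤ L, |∑ l ∈ Finset.range (d + 1), α l * ord (n + (j + l))| ≤ c / Real.log (ord n)) e he0.le
    (by linarith)
    (fun T hT hlog => by
      rw [mul_comm (T * Real.log T / (2 * Real.pi)) e]
      have h4 : T₀ ≤ T := by
        have h5 : Real.log (max T₀ 1) ≤ Real.log T := by linarith
        have h6 : max T₀ 1 ≤ T := by
          rwa [Real.log_le_log_iff (lt_of_lt_of_le one_pos (le_max_right _ _)) (by linarith)] at h5
        exact (le_max_left _ _).trans h6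
      exact hblk T h4 _ (fun n hn => hn))
  rw [cn_eq]
  refine g1.trans (mul_le_mul_of_nonneg_right (by linarith) hNpos.le)

end Pool.Agent.P8H60.NR
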