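import Pool.Agent.P8H60.NR.Stm

/-! # The set of the near-recurrent vectors is closed -/

set_option autoImplicit false

namespace Pool.Agent.P8H60.NR

open Finset Filter Topology

lemma ex_cont {K : ℕ} (m : ℕ) : Continuous fun z : Fin K → ℝ => ex z m := by
  unfold ex
  by_cases h : m < K
  · simp only [h, dif_pos]
    exact continuous_apply _
  · simp only [h, dif_neg, not_false_eq_true]
    exact continuous_const

/-- the admissible coefficients -/
def Kc (D : ℕ) : Set (Fin (D + 1) → ℝ) := {R | (∀ i, |R i| ≤ 1) ∧ ∃ i, |R i| = 1}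

lemma Kc_compact (D : ℕ) : IsCompact (Kc D) := by
  have h1 : IsCompact (Set.pi Set.univ fun _ : Fin (D + 1) => Set.Icc (-1 : ℝ) 1) :=
    isCompact_univ_pi fun _ => isCompact_Icc
  have h2 : IsClosed (⋃ i : Fin (D + 1), {R : Fin (D + 1) → ℝ | |R i| = 1}) :=
    isClosed_iUnion_of_finite fun i => isClosed_eq (continuous_abs.comp (continuous_apply i)) continuous_const
  have h3 := h1.inter_right h2
  convert h3 using 1
  ext R
  simp only [Kc, Set.mem_ofPred_eq, Set.mem_inter_iff, Set.mem_pi, Set.mem_univ, true_implies,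
    Set.mem_Icc, Set.mem_iUnion, abs_le]

theorem FK_closed (D K : ℕ) : IsClosed (FK D K) := by
  refine IsSeqClosed.isClosed ?_
  intro z z0 hz hlim
  have hch : ∀ n, ∃ R : Fin (D + 1) → ℝ, R ∈ Kc D ∧
      ∀ k, k + D < K → |∑ i : Fin (D + 1), R i * ex (z n) (k + i)| ≤ 1 / 8 := by
    intro n
    obtain ⟨R, h1, ⟨i, hi, h2⟩, h3⟩ := hz n
    refine ⟨fun i => R i, ⟨fun i => h1 i (by omega), ⟨⟨i, by omega⟩, h2⟩⟩, fun k hk => ?_⟩
    have := h3 k hk
    rwa [Finset.sum_range] at this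
  choose R hR1 hR2 using hch
  obtain ⟨R0, hR0, φ, hφ, hφl⟩ := (Kc_compact D).tendsto_subseq hR1
  refine ⟨fun i => if h : i < D + 1 then R0 ⟨i, h⟩ else 0, fun i hi => ?_, ?_, fun k hk => ?_⟩
  · simp only [show i < D + 1 by omega, dif_pos]
    exact hR0.1 _
  · obtain ⟨i, hi⟩ := hR0.2
    refine ⟨i, by omega, ?_⟩
    simp only [i.2, dif_pos]
    exact hi
  · rw [Finset.sum_range]
    have h1 : ∀ i : Fin (D + 1), (if h : (i : ℕ) < D + 1 then R0 ⟨i, h⟩ else 0) = R0 i := by
      intro i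
      simp only [i.2, dif_pos]
    simp only [h1]
    have h2 : Tendsto (fun n => |∑ i : Fin (D + 1), R (φ n) i * ex (z (φ n)) (k + i)|) atTop
        (𝓝 |∑ i : Fin (D + 1), R0 i * ex z0 (k + i)|) := by
      refine Tendsto.abs (tendsto_finsetSum _ fun i _ => ?_)
      refine Tendsto.mul ?_ ?_
      · exact (tendsto_pi_nhds.1 hφl i)
      · exact ((ex_cont (k + i)).tendsto z0).comp (hlim.comp hφ.tendsto_atTop)
    exact le_of_tendsto h2 (Eventually.of_forall fun n => hR2 (φ n) k hk)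

end Pool.Agent.P8H60.NR
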