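import Pool.Agent.P8H60.NR.Fin

/-! # Failure at a positive proportion of the places -/

set_option autoImplicit false

namespace Pool.Agent.P8H60.NR

open Finset
open SG (ord NZ)

/-- the one-sided maximal inequality -/
lemma maxi (B E : ℕ → Prop) [DecidablePred B] [DecidablePred E] (N : ℕ)
    (hE : ∀ n, 1 ≤ n → n ≤ N → E n → ∃ L ≤ N, L + 1 ≤ 2 * ((Icc n (n + L)).filter B).card) :
    ((Icc 1 N).filter E).card ≤ 2 * ((Icc 1 (2 * N)).filter B).card := by
  have key : ∀ M n₀ : ℕ, 1 ≤ n₀ → N < n₀ + M →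
      ((Icc n₀ N).filter E).card ≤ 2 * ((Icc n₀ (2 * N)).filter B).card := by
    intro M
    induction M using Nat.strong_induction_on with
    | _ M ih =>
      intro n₀ h1 hM
      rcases Nat.lt_or_ge N n₀ with h2 | h2
      · rw [Finset.Icc_eq_empty (by omega)]
        simp
      · by_cases h3 : E n₀
        · obtain ⟨L, hL, h4⟩ := hE n₀ h1 h2 h3
          have h5 := ih (M - (L + 1)) (by omega) (n₀ + (L + 1)) (by omega) (by omega)
          have h6 : (Icc n₀ N).filter E ⊆ Icc n₀ (n₀ + L) ∪ (Icc (n₀ + (L + 1)) N).filter E := by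
            intro x hx
            rw [mem_filter, mem_Icc] at hx
            rw [mem_union, mem_Icc, mem_filter, mem_Icc]
            by_cases h : x ≤ n₀ + L
            · exact Or.inl ⟨hx.1.1, h⟩
            · exact Or.inr ⟨⟨by omega, hx.1.2⟩, hx.2⟩
          have h7 := (card_le_card h6).trans (card_union_le _ _)
          rw [Nat.card_Icc] at h7
          have h8 : ((Icc n₀ (n₀ + L)).filter B).card + ((Icc (n₀ + (L + 1)) (2 * N)).filter B).card ≤
              ((Icc n₀ (2 * N)).filter B).card := by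
            rw [← card_union_of_disjoint]
            · apply card_le_card
              intro x hx
              rw [mem_union, mem_filter, mem_filter, mem_Icc, mem_Icc] at hx
              rw [mem_filter, mem_Icc]
              rcases hx with ⟨⟨a1, a2⟩, a3⟩ | ⟨⟨a1, a2⟩, a3⟩
              · exact ⟨⟨a1, by omega⟩, a3⟩
              · exact ⟨⟨by omega, a2⟩, a3⟩
            · rw [Finset.disjoint_left]
              intro x hx1 hx2
              rw [mem_filter, mem_Icc] at hx1 hx2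
              omega
          omega
        · have h5 := ih (M - 1) (by omega) (n₀ + 1) (by omega) (by omega)
          have h6 : (Icc n₀ N).filter E ⊆ (Icc (n₀ + 1) N).filter E := by
            intro x hx
            rw [mem_filter, mem_Icc] at hx
            rw [mem_filter, mem_Icc]
            refine ⟨⟨?_, hx.1.2⟩, hx.2⟩
            rcases Nat.lt_or_ge n₀ x with h | h
            · omega
            · exfalso
              apply h3
              have : x = n₀ := by omega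
              rw [← this]
              exact hx.2
          have h7 : ((Icc (n₀ + 1) (2 * N)).filter B).card ≤ ((Icc n₀ (2 * N)).filter B).card :=
            card_le_card (filter_subset_filter _ (Icc_subset_Icc (by omega) le_rfl))
          have h8 := card_le_card h6
          omega
  exact key N 1 le_rfl (by omega)

lemma ord_mono {m n : ℕ} (hm : 1 ≤ m) (h : m ≤ n) : ord m ≤ ord n := by
  rw [SG.ord_le_iff hm]
  exact h.trans ((SG.ord_le_iff (by omega : 1 ≤ n) _).1 le_rfl)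

/-- the relation holds along the run `[m, m + L]` up to `c / log` -/
def Rel (d L : ℕ) (c : ℝ) (m : ℕ) : Prop :=
  ∃ a b : Fin (d + 1) → ℝ, (∃ l, 1 ≤ |a l|) ∧ b ≠ 0 ∧ ∃ u : ℕ → ℝ,
      (∀ j, j + d ≤ L → ∑ l : Fin (d + 1), b l * u (j + l) = 0) ∧
      ∀ j, j ≤ L → |∑ l : Fin (d + 1), a l * ord (m + j + l) - u j| ≤ c / Real.log (ord m)

/-- if a relation holds at most places of a run, then many of the short runs in it are exceptional -/
lemma many_bad {d L₁ L n : ℕ} {c₁ c : ℝ} (hc₁ : 0 < c₁) (hcc : c ≤ c₁)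
    (hc4 : c * (4 * (L₁ + 1)) ≤ 1) (hL : 4 * L₁ + 1 ≤ L) (a b : Fin (d + 1) → ℝ)
    (ha : ∃ l, 1 ≤ |a l|) (hb : b ≠ 0) (u : ℕ → ℝ)
    (hu : ∀ j, j + d ≤ L → ∑ l : Fin (d + 1), b l * u (j + l) = 0)
    (hF : (({j : ℕ | j ≤ L ∧ c / Real.log (ord (n + j)) <
      |∑ l : Fin (d + 1), a l * ord (n + j + l) - u j|} : Set ℕ).ncard : ℝ) < c * L)
    (B : ℕ → Prop) [DecidablePred B] (hB : ∀ m, (m ≤ NZ 3 ∨ Rel d L₁ c₁ m) → B m) :
    L + 1 ≤ 2 * ((Icc n (n + L)).filter B).card := by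
  classical
  by_contra hcon
  push Not at hcon
  set F := (range (L + 1)).filter (fun j => c / Real.log (ord (n + j)) <
      |∑ l : Fin (d + 1), a l * ord (n + j + l) - u j|) with hFd
  have hFe : ({j : ℕ | j ≤ L ∧ c / Real.log (ord (n + j)) <
      |∑ l : Fin (d + 1), a l * ord (n + j + l) - u j|} : Set ℕ) = (F : Set ℕ) := by
    ext j
    simp only [hFd, Set.mem_ofPred_eq, coe_filter, mem_range, Nat.lt_succ_iff]
  rw [hFe, Set.ncard_coe_finset] at hF
  set S := (range (L + 1 - L₁)).filter (fun k => ¬ B (n + k)) with hS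
  have hex : ∀ k ∈ S, ∃ i ≤ L₁, k + i ∈ F := by
    intro k hk
    rw [hS, mem_filter, mem_range] at hk
    obtain ⟨hk1, hk2⟩ := hk
    have h1 : ¬ (n + k ≤ NZ 3 ∨ Rel d L₁ c₁ (n + k)) := fun h => hk2 (hB _ h)
    push Not at h1
    obtain ⟨h2, h3⟩ := h1
    by_contra hno
    push Not at hno
    apply h3
    refine ⟨a, b, ha, hb, fun i => u (k + i), fun j hj => ?_, fun j hj => ?_⟩
    · have := hu (k + j) (by omega)
      refine Eq.trans ?_ this
      exact sum_congr rfl fun l _ => by rw [Nat.add_assoc]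
    · have h4 := hno j hj
      rw [hFd, mem_filter, mem_range] at h4
      push Not at h4
      have h5 := h4 (by omega)
      have e1 : n + k + j = n + (k + j) := by omega
      rw [e1]
      refine h5.trans ?_
      have h6 : (3 : ℝ) < ord (n + k) := by
        by_contra h7
        push Not at h7
        rw [SG.ord_le_iff (by omega)] at h7
        omega
      have h7 : ord (n + k) ≤ ord (n + (k + j)) := ord_mono (by omega) (by omega)
      have h8 : 0 < Real.log (ord (n + k)) := Real.log_pos (by linarith)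
      have h9 : Real.log (ord (n + k)) ≤ Real.log (ord (n + (k + j))) :=
        Real.log_le_log (by linarith) h7
      calc c / Real.log (ord (n + (k + j))) ≤ c₁ / Real.log (ord (n + (k + j))) :=
            div_le_div_of_nonneg_right hcc (by linarith)
        _ ≤ c₁ / Real.log (ord (n + k)) := div_le_div_of_nonneg_left hc₁.le h8 h9
  choose! f hf1 hf2 using hex
  have h1 : S.card ≤ (L₁ + 1) * F.card := by
    refine card_le_mul_card_image_of_maps_to (f := fun k => k + f k) (fun k hk => hf2 k hk) _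
      fun j hj => ?_
    have h2 : S.filter (fun k => k + f k = j) ⊆ Icc (j - L₁) j := by
      intro k hk
      rw [mem_filter] at hk
      rw [mem_Icc]
      have := hf1 k hk.1
      omega
    refine (card_le_card h2).trans ?_
    rw [Nat.card_Icc]
    omega
  have h2 : L + 1 - L₁ ≤ S.card + ((Icc n (n + L)).filter B).card := by
    have h3 := card_filter_add_card_filter_not (s := range (L + 1 - L₁)) (fun k => ¬ B (n + k))
    rw [card_range, ← hS] at h3
    have h4 : ((range (L + 1 - L₁)).filter (fun k => ¬ ¬ B (n + k))).card ≤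
        ((Icc n (n + L)).filter B).card := by
      refine card_le_card_of_injOn (fun k => n + k) (fun k hk => ?_) (fun x _ y _ h => ?_)
      · rw [mem_coe, mem_filter, mem_range] at hk
        rw [mem_coe, mem_filter, mem_Icc]
        refine ⟨⟨?_, ?_⟩, not_not.1 hk.2⟩
        · show n ≤ n + k
          omega
        · show n + k ≤ n + L
          omega
      · simpa using h
    omega
  have h3 : L + 1 - 2 * L₁ ≤ 2 * ((L₁ + 1) * F.card) := by omega
  have h4 : (L : ℝ) + 1 - 2 * L₁ ≤ 2 * ((L₁ + 1) * F.card) := by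
    have : L + 1 ≤ 2 * ((L₁ + 1) * F.card) + 2 * L₁ := by omega
    have h5 : ((L + 1 : ℕ) : ℝ) ≤ ((2 * ((L₁ + 1) * F.card) + 2 * L₁ : ℕ) : ℝ) := by exact_mod_cast this
    push_cast at h5
    linarith
  have h5 : (L₁ + 1 : ℝ) * F.card ≤ (L₁ + 1) * (c * L) :=
    mul_le_mul_of_nonneg_left hF.le (by positivity)
  have h6 : (L₁ + 1 : ℝ) * (c * L) ≤ L / 4 := by
    have h7 : c * (4 * (L₁ + 1)) * L ≤ 1 * L := mul_le_mul_of_nonneg_right hc4 (Nat.cast_nonneg L)
    linarith
  have h7 : (4 * (L₁ : ℝ) + 1) ≤ L := by exact_mod_cast hL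
  linarith

/-- **for almost all `n` every linear recurrence fails at a positive proportion of the places of all
long runs starting with the `n`-th ordinate** -/
theorem dens_nr (d : ℕ) {η : ℝ} (hη : 0 < η) : ∃ c : ℝ, 0 < c ∧ ∃ L₀ N₀ : ℕ, ∀ N : ℕ, N₀ ≤ N →
    (({n : ℕ | 1 ≤ n ∧ n ≤ N ∧ ∃ L : ℕ, L₀ ≤ L ∧ L ≤ N ∧ ∃ a b : Fin (d + 1) → ℝ,
      (∃ l, 1 ≤ |a l|) ∧ b ≠ 0 ∧ ∃ u : ℕ → ℝ,
      (∀ j, j + d ≤ L → ∑ l : Fin (d + 1), b l * u (j + l) = 0) ∧
      (({j : ℕ | j ≤ L ∧ c / Real.log (ord (n + j)) <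
        |∑ l : Fin (d + 1), a l * ord (n + j + l) - u j|} : Set ℕ).ncard : ℝ) < c * L} :
        Set ℕ).ncard : ℝ) ≤ η * N := by
  classical
  obtain ⟨L₁, c₁, hc₁, N₁, h⟩ := fin_nr d (η := η / 16) (by positivity)
  obtain ⟨c, hc⟩ : ∃ c : ℝ, c = min c₁ (1 / (4 * (L₁ + 1))) := ⟨_, rfl⟩
  have hc0 : 0 < c := by rw [hc]; exact lt_min hc₁ (by positivity)
  have hcc : c ≤ c₁ := by rw [hc]; exact min_le_left _ _
  have hc4 : c * (4 * (L₁ + 1)) ≤ 1 := by
    have : c ≤ 1 / (4 * (L₁ + 1)) := by rw [hc]; exact min_le_right _ _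
    rwa [le_div_iff₀ (by positivity)] at this
  refine ⟨c, hc0, 4 * L₁ + 1, max N₁ ⌈8 * NZ 3 / η⌉₊, fun N hN => ?_⟩
  have hN1 : N₁ ≤ N := (le_max_left _ _).trans hN
  have hN2 : 8 * NZ 3 / η ≤ N := (Nat.le_ceil _).trans (by exact_mod_cast (le_max_right _ _).trans hN)
  rw [div_le_iff₀ hη] at hN2
  have g1 := h (2 * N) (by omega)
  set E : ℕ → Prop := fun n => ∃ L : ℕ, 4 * L₁ + 1 ≤ L ∧ L ≤ N ∧ ∃ a b : Fin (d + 1) → ℝ,
      (∃ l, 1 ≤ |a l|) ∧ b ≠ 0 ∧ ∃ u : ℕ → ℝ,
      (∀ j, j + d ≤ L → ∑ l : Fin (d + 1), b l * u (j + l) = 0) ∧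
      (({j : ℕ | j ≤ L ∧ c / Real.log (ord (n + j)) <
        |∑ l : Fin (d + 1), a l * ord (n + j + l) - u j|} : Set ℕ).ncard : ℝ) < c * L with hE
  have hEe : ({n : ℕ | 1 ≤ n ∧ n ≤ N ∧ E n} : Set ℕ) = (((Icc 1 N).filter E : Finset ℕ) : Set ℕ) := by
    ext n
    simp only [Set.mem_ofPred_eq, coe_filter, mem_Icc, and_assoc]
  show (({n : ℕ | 1 ≤ n ∧ n ≤ N ∧ E n} : Set ℕ).ncard : ℝ) ≤ η * N
  rw [hEe, Set.ncard_coe_finset]
  have g2 := maxi (fun m => m ≤ NZ 3 ∨ Rel d L₁ c₁ m) E N (fun n _ _ hn => by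
    obtain ⟨L, hL1, hL2, a, b, ha, hb, u, hu, hF⟩ := hn
    exact ⟨L, hL2, many_bad hc₁ hcc hc4 hL1 a b ha hb u hu hF _ (fun m hm => hm)⟩)
  have g3 : (((Icc 1 (2 * N)).filter (fun m => m ≤ NZ 3 ∨ Rel d L₁ c₁ m)).card : ℝ) ≤
      NZ 3 + η / 16 * ((2 * N : ℕ) : ℝ) := by
    have h1 : (Icc 1 (2 * N)).filter (fun m => m ≤ NZ 3 ∨ Rel d L₁ c₁ m) ⊆
        Icc 1 (NZ 3) ∪ (Icc 1 (2 * N)).filter (fun m => Rel d L₁ c₁ m) := by
      intro m hm
      rw [mem_filter, mem_Icc] at hm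
      rw [mem_union, mem_Icc, mem_filter, mem_Icc]
      rcases hm.2 with h2 | h2
      · exact Or.inl ⟨hm.1.1, h2⟩
      · exact Or.inr ⟨hm.1, h2⟩
    have h2 := (card_le_card h1).trans (card_union_le _ _)
    rw [Nat.card_Icc, Nat.add_sub_cancel] at h2
    have h3 : ({n : ℕ | 1 ≤ n ∧ n ≤ 2 * N ∧ Rel d L₁ c₁ n} : Set ℕ) =
        (((Icc 1 (2 * N)).filter (fun m => Rel d L₁ c₁ m) : Finset ℕ) : Set ℕ) := by
      ext n
      simp only [Set.mem_ofPred_eq, coe_filter, mem_Icc, and_assoc]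
    have h4 : ((((Icc 1 (2 * N)).filter (fun m => Rel d L₁ c₁ m)).card : ℕ) : ℝ) ≤
        η / 16 * ((2 * N : ℕ) : ℝ) := by
      rw [← Set.ncard_coe_finset, ← h3]
      exact g1
    have h5 : ((((Icc 1 (2 * N)).filter (fun m => m ≤ NZ 3 ∨ Rel d L₁ c₁ m)).card : ℕ) : ℝ) ≤
        ((NZ 3 + ((Icc 1 (2 * N)).filter (fun m => Rel d L₁ c₁ m)).card : ℕ) : ℝ) := by
      exact_mod_cast h2
    push_cast at h5 h4 ⊢
    linarith
  have g4 : ((((Icc 1 N).filter E).card : ℕ) : ℝ) ≤
      ((2 * ((Icc 1 (2 * N)).filter (fun m => m ≤ NZ 3 ∨ Rel d L₁ c₁ m)).card : ℕ) : ℝ) := by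
    exact_mod_cast g2
  push_cast at g3 g4
  have : 0 ≤ η * N := by positivity
  linarith

end Pool.Agent.P8H60.NR
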