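import Pool.Agent.R846.VS.G2

/-! # The ordinates at finitely many positions following a height -/

set_option autoImplicit false

namespace Pool.Agent.P8H60.NR

open Filter Topology MeasureTheory
open Pool.Agent.Y743.NC (dev dev_int dev_nonneg)
open Pool.Agent.R321.QA (hs)
open Pool.Agent.R846.VS
open SG (NZ ord ord_le_iff)

/-- the position of the ordinate is close to the value given by the number of zeros -/
def nearP (P : Finset ℕ) (T e t : ℝ) : Prop :=
  ∀ x ∈ P, |(ord (NZ t + 1 + x) - t) * (Real.log T / (2 * Real.pi)) - (x + 1) + Dd T t x| ≤ 2 * e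

/-- **for most heights the ordinates at finitely many positions are given by the number of zeros** -/
theorem near_all {η : ℝ} (hη : 0 < η) {ε₀ : ℝ} (hε₀ : 0 < ε₀) (K : ℕ) (hK : 1 ≤ K) :
    ∃ A : ℝ, 3 ≤ A ∧ ∀ (a : ℕ) (T : ℝ), A ≤ a → 1 ≤ T → (a : ℝ) * Real.log a ≤ Real.log T →
    ∀ P : Finset ℕ, P.card ≤ 4 * K → (∀ x ∈ P, x ≤ a) →
    volume {t ∈ Set.Icc T (2 * T) | ¬ nearP P T (ε₀ * Real.sqrt (Real.log a)) t} ≤
      ENNReal.ofReal (η * T) := by
  obtain ⟨C, R₀, hC, hexc⟩ := exc2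
  have hKr : (1 : ℝ) ≤ K := by exact_mod_cast hK
  obtain ⟨η', hη'⟩ : ∃ η' : ℝ, η' = 2 * η := ⟨_, rfl⟩
  have hη'0 : 0 < η' := by rw [hη']; linarith
  set Q₂ := Real.sqrt (64 * K / η') with hQ₂
  have hQ₂0 : 0 < Q₂ := Real.sqrt_pos.2 (by positivity)
  have hQ₂2 : Q₂ ^ 2 = 64 * K / η' := Real.sq_sqrt (by positivity)
  set S := ⌈Q₂ / ε₀⌉₊ + ⌈1 / ε₀⌉₊ + 2 with hS
  have hSQ : Q₂ / ε₀ + 1 / ε₀ + 2 ≤ S := by
    rw [hS]; push_cast
    linarith [Nat.le_ceil (Q₂ / ε₀), Nat.le_ceil (1 / ε₀)]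
  have hS0 : (0 : ℝ) ≤ S := Nat.cast_nonneg S
  set r₀ := 4 * K * (2 * S + 1) * (S * ε₀ + C) * 8 / (η' * ε₀ ^ 2) + 1 with hr₀
  have hr₀0 : 1 ≤ r₀ := by
    rw [hr₀]
    have : 0 ≤ 4 * K * (2 * S + 1) * (S * ε₀ + C) * 8 / (η' * ε₀ ^ 2) := by positivity
    linarith
  set A₀ := Real.exp (r₀ ^ 2 + (2 * S * ε₀) ^ 2 + C + 2) + |R₀| + 224 / η' + 3 with hA₀
  have hexp0 := Real.exp_pos (r₀ ^ 2 + (2 * S * ε₀) ^ 2 + C + 2)
  have h224' : 0 ≤ 224 / η' := by positivity
  have hR₀' := abs_nonneg R₀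
  refine ⟨A₀, by linarith, fun a T haA hT haT P hPc hPle => ?_⟩
  have haR₀ : R₀ ≤ a := by linarith [le_abs_self R₀]
  have ha224 : 224 / η' ≤ a := by linarith
  have ha3 : (3 : ℝ) ≤ a := by linarith
  have ha0 : (0 : ℝ) < a := by linarith
  have hlogA : r₀ ^ 2 + (2 * S * ε₀) ^ 2 + C + 2 ≤ Real.log a := by
    rw [Real.le_log_iff_exp_le ha0]
    linarith
  have hq1 := sq_nonneg r₀
  have hq2 := sq_nonneg (2 * (S : ℝ) * ε₀)
  have hla1 : 1 ≤ Real.log a := by linarith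
  set r := Real.sqrt (Real.log a) with hr
  have hr2 : r ^ 2 = Real.log a := Real.sq_sqrt (by linarith)
  have hr1 : 1 ≤ r := Real.one_le_sqrt.2 hla1
  have hrr₀ : r₀ ≤ r := Real.le_sqrt_of_sq_le (by linarith)
  have hrS : 2 * S * ε₀ ≤ r := Real.le_sqrt_of_sq_le (by linarith)
  set e := ε₀ * r with he
  have he0 : 0 < e := by rw [he]; positivity
  have hra : r ^ 2 ≤ a := by
    rw [hr2]
    linarith [Real.log_le_sub_one_of_pos ha0]
  have hSe : (S : ℝ) * e ≤ a / 2 := by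
    have h1 : (S : ℝ) * e = (2 * S * ε₀) * r / 2 := by rw [he]; ring
    have h2 : (2 * S * ε₀) * r ≤ r * r := mul_le_mul_of_nonneg_right hrS (by linarith)
    have h3 : r * r = r ^ 2 := by ring
    linarith
  have hlog1 : Real.log (1 + 2 * a) + C ≤ 2 * Real.log a := by
    have h1 : Real.log (1 + 2 * a) ≤ Real.log 3 + Real.log a := by
      rw [← Real.log_mul (by norm_num) (by linarith)]
      exact Real.log_le_log (by linarith) (by linarith)
    have h2 : Real.log 3 ≤ 2 := by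
      have := Real.log_le_sub_one_of_pos (by norm_num : (0 : ℝ) < 3)
      linarith
    linarith
  have hT0 : 0 < T := by linarith
  have hLT0 : 0 < Real.log T := lt_of_lt_of_le (mul_pos ha0 (by linarith)) haT
  set H := 160 * K * Real.log a / (η' * Real.pi ^ 2) with hH
  have hRS : 1 + Q₂ * r + 2 * e ≤ S * e := by
    have h1 : (Q₂ / ε₀ + 1 / ε₀ + 2) * e ≤ S * e := mul_le_mul_of_nonneg_right hSQ he0.le
    have h3 : (Q₂ / ε₀ + 1 / ε₀ + 2) * e = Q₂ * r + r + 2 * e := by rw [he]; field_simp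
    linarith
  have hbad := hexc P K a 0 S T (Q₂ * r) e H η' hPc
    (fun x hx => by
      have : (x : ℝ) ≤ a := by exact_mod_cast hPle x hx
      linarith) hK hη'0 haR₀ hT haT (by omega) (by linarith)
    hlog1 he0 rfl (by rw [mul_pow, hQ₂2, hr2]) (by
      have h1 : Real.log (1 + S * e) ≤ S * e := by
        have := Real.log_le_sub_one_of_pos (by positivity : 0 < 1 + (S : ℝ) * e)
        linarith
      have h2 : S * e + C ≤ (S * ε₀ + C) * r := by
        have : C ≤ C * r := le_mul_of_one_le_right hC.le hr1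
        have h3 : (S : ℝ) * e = S * ε₀ * r := by rw [he]; ring
        rw [h3]; linarith
      have h3 : 4 * K * (2 * S + 1) * (S * ε₀ + C) ≤ η' * ε₀ ^ 2 * r / 8 := by
        have h4 : 4 * K * (2 * S + 1) * (S * ε₀ + C) * 8 / (η' * ε₀ ^ 2) ≤ r := by linarith
        rw [div_le_iff₀ (by positivity)] at h4
        linarith
      calc 4 * K * (2 * S + 1) * (Real.log (1 + S * e) + C)
          ≤ 4 * K * (2 * S + 1) * ((S * ε₀ + C) * r) := by
            apply mul_le_mul_of_nonneg_left (by linarith) (by positivity)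
        _ = 4 * K * (2 * S + 1) * (S * ε₀ + C) * r := by ring
        _ ≤ η' * ε₀ ^ 2 * r / 8 * r := mul_le_mul_of_nonneg_right h3 (by linarith)
        _ = η' / 8 * e ^ 2 := by rw [he]; ring) ha224
  have h2 : η' / 2 * T = η * T := by rw [hη']; ring
  rw [h2] at hbad
  refine (measure_mono ?_).trans hbad
  rintro t ⟨ht, hn⟩
  refine ⟨ht, fun hG => hn ?_⟩
  intro x hx
  exact pos1 hLT0 he0 (by positivity) hRS (hG.2.1 x hx) (hG.2.2 x hx)

end Pool.Agent.P8H60.NR
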