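import Pool.Agent.P8H60.NR.Joint2
import Pool.Agent.P8H60.NR.Closed
import Pool.Agent.P8H60.NR.Near

/-! # The deterministic part -/

set_option autoImplicit false

namespace Pool.Agent.P8H60.NR

open Filter Topology MeasureTheory
open Pool.Agent.R321.QA (hs)
open Pool.Agent.R846.VS
open SG (NZ ord)

/-- the positions -/
def Pn (K s : ℕ) : Finset ℕ :=
  (Finset.range K).image (fun k => (K - k) * s) ∪ (Finset.range K).image (fun k => (3 * K + k) * s)

lemma Pn_card (K s : ℕ) : (Pn K s).card ≤ 4 * K := by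
  unfold Pn
  refine (Finset.card_union_le _ _).trans ?_
  have h1 : ((Finset.range K).image (fun k => (K - k) * s)).card ≤ K := by
    simpa using Finset.card_image_le (s := Finset.range K) (f := fun k => (K - k) * s)
  have h2 : ((Finset.range K).image (fun k => (3 * K + k) * s)).card ≤ K := by
    simpa using Finset.card_image_le (s := Finset.range K) (f := fun k => (3 * K + k) * s)
  omega

lemma Pn_le {K s x : ℕ} (hx : x ∈ Pn K s) : x ≤ 4 * K * s := by
  rcases Finset.mem_union.1 hx with h | h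
  · obtain ⟨k, hk, rfl⟩ := Finset.mem_image.1 h
    exact Nat.mul_le_mul_right _ (by omega)
  · obtain ⟨k, hk, rfl⟩ := Finset.mem_image.1 h
    have := Finset.mem_range.1 hk
    exact Nat.mul_le_mul_right _ (by omega)

lemma Pn_mem1 {K s k : ℕ} (hk : k < K) : (K - k) * s ∈ Pn K s :=
  Finset.mem_union_left _ (Finset.mem_image.2 ⟨k, Finset.mem_range.2 hk, rfl⟩)

lemma Pn_mem2 {K s k : ℕ} (hk : k < K) : (3 * K + k) * s ∈ Pn K s :=
  Finset.mem_union_right _ (Finset.mem_image.2 ⟨k, Finset.mem_range.2 hk, rfl⟩)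

/-- the deviations in terms of the fluctuation of the number of zeros -/
lemma zt_Dd {K s : ℕ} (T t : ℝ) {m : ℕ} (hm : m < K) :
    ex (zt K ((4 * K * s : ℕ) : ℝ) T t) m =
      Real.pi / Real.sqrt (Real.log ((4 * K * s : ℕ) : ℝ)) *
        (Dd T t (((K - m) * s : ℕ) : ℝ) - Dd T t (((3 * K + m) * s : ℕ) : ℝ)) := by
  have hK : (0 : ℝ) < K := by exact_mod_cast (by omega : 0 < K)
  unfold ex
  rw [dif_pos hm]
  unfold zt Dd
  congr 1
  have e1 : sk K m ((4 * K * s : ℕ) : ℝ) = (((K - m) * s : ℕ) : ℝ) := by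
    unfold sk
    push_cast [Nat.cast_sub hm.le]
    field_simp
  have e2 : bk K m ((4 * K * s : ℕ) : ℝ) = 2 * ((K + m : ℝ) * s) := by
    unfold bk
    push_cast
    field_simp
    ring
  have e3 : (((3 * K + m) * s : ℕ) : ℝ) = (((K - m) * s : ℕ) : ℝ) + 2 * ((K + m : ℝ) * s) := by
    push_cast [Nat.cast_sub hm.le]
    ring
  have e4 : hs (((3 * K + m) * s : ℕ) : ℝ) T = hs (((K - m) * s : ℕ) : ℝ) T +
      hs (2 * ((K + m : ℝ) * s)) T := by
    rw [e3]; unfold hs; ring
  simp only [e1, e2]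
  rw [e4, ← add_assoc, e3]
  ring

/-- **the deterministic part** -/
theorem det_nr {D₀ K s : ℕ} {T t e ω : ℝ} (hsD : D₀ ≤ s) (he : 0 ≤ e)
    (hlog : 0 < Real.log ((4 * K * s : ℕ) : ℝ))
    (Q : ℕ → ℝ) (hQ : ∀ i ≤ 2 * D₀, |Q i| ≤ 1) (hQ1 : ∃ i ≤ 2 * D₀, |Q i| = 1)
    (w : ℕ → ℝ) (hw : ∀ x, w x = ord (NZ t + 1 + x) * (Real.log T / (2 * Real.pi)) - x)
    (hQ2 : ∀ x, D₀ ≤ x → x + 2 * D₀ * s ≤ 4 * K * s →
      |∑ i ∈ Finset.range (2 * D₀ + 1), Q i * w (x + s * i)| ≤ ω ∧
      |∑ i ∈ Finset.range (2 * D₀ + 1), Q i * w (x + s * (2 * D₀ - i))| ≤ ω)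
    (hn : nearP (Pn K s) T e t)
    (hsmall : Real.pi / Real.sqrt (Real.log ((4 * K * s : ℕ) : ℝ)) *
      (2 * ω + (2 * D₀ + 1) * (4 * e)) ≤ 1 / 8) :
    zt K ((4 * K * s : ℕ) : ℝ) T t ∈ FK (2 * D₀) K := by
  refine ⟨Q, hQ, hQ1, fun k hk => ?_⟩
  have hpi := Real.pi_pos
  have hs0 : 0 < Real.sqrt (Real.log ((4 * K * s : ℕ) : ℝ)) := Real.sqrt_pos.2 hlog
  set q := Real.pi / Real.sqrt (Real.log ((4 * K * s : ℕ) : ℝ)) with hq
  have hq0 : 0 < q := by positivity
  set E : ℕ → ℝ := fun x => (ord (NZ t + 1 + x) - t) * (Real.log T / (2 * Real.pi)) - (x + 1) +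
    Dd T t x with hE
  have hEb : ∀ x ∈ Pn K s, |E x| ≤ 2 * e := hn
  have hDd : ∀ x : ℕ, Dd T t x = E x - (w x - t * (Real.log T / (2 * Real.pi)) - 1) := by
    intro x
    rw [hw]
    simp only [hE]
    ring
  have hterm : ∀ i ∈ Finset.range (2 * D₀ + 1), Q i * ex (zt K ((4 * K * s : ℕ) : ℝ) T t) (k + i) =
      q * (Q i * w ((3 * K + k) * s + s * i) - Q i * w ((K - k - 2 * D₀) * s + s * (2 * D₀ - i)) +
        Q i * (E ((K - (k + i)) * s) - E ((3 * K + (k + i)) * s))) := by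
    intro i hi
    have hi' := Finset.mem_range.1 hi
    rw [zt_Dd T t (by omega : k + i < K), hDd, hDd]
    have e1 : (3 * K + k) * s + s * i = (3 * K + (k + i)) * s := by ring
    have e2 : (K - k - 2 * D₀) * s + s * (2 * D₀ - i) = (K - (k + i)) * s := by
      have : K - (k + i) = (K - k - 2 * D₀) + (2 * D₀ - i) := by omega
      rw [this]; ring
    rw [e1, e2]
    ring
  rw [Finset.sum_congr rfl hterm, ← Finset.mul_sum, Finset.sum_add_distrib, Finset.sum_sub_distrib,
    abs_mul, abs_of_pos hq0]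
  have b1 := (hQ2 ((3 * K + k) * s) (by nlinarith) (by nlinarith)).1
  have b2 := (hQ2 ((K - k - 2 * D₀) * s) (by
      have : 1 * s ≤ (K - k - 2 * D₀) * s := Nat.mul_le_mul_right _ (by omega)
      omega) (by
      have : (K - k - 2 * D₀) * s + 2 * D₀ * s = (K - k) * s := by
        rw [← add_mul]
        congr 1
        omega
      rw [this]
      exact Nat.mul_le_mul_right _ (by omega))).2
  have b3 : |∑ i ∈ Finset.range (2 * D₀ + 1), Q i * (E ((K - (k + i)) * s) - E ((3 * K + (k + i)) * s))| ≤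
      (2 * D₀ + 1) * (4 * e) := by
    refine (Finset.abs_sum_le_sum_abs _ _).trans ?_
    calc _ ≤ ∑ i ∈ Finset.range (2 * D₀ + 1), 4 * e := by
          refine Finset.sum_le_sum fun i hi => ?_
          have hi' := Finset.mem_range.1 hi
          rw [abs_mul]
          have c1 := hEb _ (Pn_mem1 (s := s) (by omega : k + i < K))
          have c2 := hEb _ (Pn_mem2 (s := s) (by omega : k + i < K))
          have c3 : |E ((K - (k + i)) * s) - E ((3 * K + (k + i)) * s)| ≤ 4 * e :=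
            (abs_sub _ _).trans (by linarith)
          calc _ ≤ 1 * (4 * e) := mul_le_mul (hQ i (by omega)) c3 (abs_nonneg _) zero_le_one
            _ = 4 * e := one_mul _
      _ = _ := by
          rw [Finset.sum_const, Finset.card_range, nsmul_eq_mul]
          push_cast
          ring
  refine le_trans (mul_le_mul_of_nonneg_left ?_ hq0.le) hsmall
  refine (abs_add_le _ _).trans (add_le_add ((abs_sub _ _).trans ?_) b3)
  linarith

end Pool.Agent.P8H60.NR
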