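import Pool.Agent.P8H21.NR.Base

/-! # Right-hand sides which satisfy a recurrence themselves -/

set_option autoImplicit false

namespace Pool.Agent.P8H60.NR

open Polynomial Finset
open Pool.Agent.P8H21.NR

/-- a recurrence whose right-hand side satisfies a recurrence gives a homogeneous recurrence -/
theorem rhs (d : ℕ) : ∃ c : ℝ, 0 < c ∧ ∀ α β : ℕ → ℝ, (∃ l ≤ d, 1 ≤ |α l|) → (∃ l ≤ d, β l ≠ 0) →
    ∃ κ : ℕ → ℝ, (∃ l ≤ 2 * d, 1 ≤ |κ l|) ∧ ∀ (y u : ℕ → ℝ) (δ : ℝ) (J : ℕ),
      (∀ x ≤ J, ∑ l ∈ range (d + 1), β l * u (x + l) = 0) →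
      (∀ x ≤ J + d, |∑ l ∈ range (d + 1), α l * y (x + l) - u x| ≤ c * δ) →
      ∀ x ≤ J, |∑ l ∈ range (2 * d + 1), κ l * y (x + l)| ≤ δ := by
  set c1 : ℝ := (2 ^ (2 * d) * (2 * d + 1 : ℕ) : ℝ)⁻¹ with hc1
  have hc1pos : 0 < c1 := by positivity
  refine ⟨c1, hc1pos, fun α β hα hβ => ?_⟩
  set al := pol d α with hal
  set be := pol d β with hbe
  have hal1 : 1 ≤ l1 al := pol_l1 d α hα
  have hal0 : al ≠ 0 := ne_zero_of_l1 _ hal1
  have hbe0 : be ≠ 0 := by
    obtain ⟨l, hl, h1⟩ := hβ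
    intro h2
    apply h1
    rw [← pol_coeff d β l hl, ← hbe, h2, coeff_zero]
  have hbe1 : 0 < l1 be := by
    obtain ⟨l, hl, h1⟩ := hβ
    refine lt_of_lt_of_le (abs_pos.2 h1) ?_
    rw [← pol_coeff d β l hl]
    exact le_l1 _ _
  have hdeg : (al * be).natDegree ≤ 2 * d := by
    refine natDegree_mul_le.trans ?_
    have h1 : al.natDegree ≤ d := pol_natDegree d α
    have h2 : be.natDegree ≤ d := pol_natDegree d β
    omega
  have hG := gelfond al be hal0 hbe0
  have h1 : l1 be ≤ 2 ^ (2 * d) * l1 (al * be) := by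
    have ha : l1 be ≤ l1 al * l1 be := le_mul_of_one_le_left hbe1.le hal1
    refine ha.trans (hG.trans ?_)
    refine mul_le_mul_of_nonneg_right ?_ (l1_nonneg _)
    exact pow_le_pow_right₀ (by norm_num) hdeg
  have hex : ∃ l ≤ 2 * d, c1 * l1 be ≤ |(al * be).coeff l| := by
    by_contra hcon
    push Not at hcon
    have h2 : l1 (al * be) < (2 * d + 1 : ℕ) * (c1 * l1 be) := by
      have : l1 (al * be) = ∑ i ∈ range (2 * d + 1), |(al * be).coeff i| := by
        rw [l1_eq]
        refine Finset.sum_subset (Finset.range_subset_range.2 (by omega)) fun i _ hi => ?_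
        rw [Finset.mem_range, not_lt] at hi
        rw [coeff_eq_zero_of_natDegree_lt (by omega), abs_zero]
      rw [this]
      have h3 : ∑ i ∈ range (2 * d + 1), |(al * be).coeff i| <
          ∑ i ∈ range (2 * d + 1), c1 * l1 be := by
        refine Finset.sum_lt_sum_of_nonempty (by simp) fun i hi => ?_
        rw [Finset.mem_range] at hi
        exact hcon i (by omega)
      refine h3.trans_le (le_of_eq ?_)
      rw [Finset.sum_const, Finset.card_range, nsmul_eq_mul]
    have h4 : 2 ^ (2 * d) * ((2 * d + 1 : ℕ) * (c1 * l1 be)) = l1 be := by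
      rw [hc1, ← mul_assoc, ← mul_assoc]
      rw [mul_inv_cancel₀ (by positivity), one_mul]
    have h5 : (2 : ℝ) ^ (2 * d) * l1 (al * be) < l1 be := by
      calc (2 : ℝ) ^ (2 * d) * l1 (al * be) < 2 ^ (2 * d) * ((2 * d + 1 : ℕ) * (c1 * l1 be)) :=
            mul_lt_mul_of_pos_left h2 (by positivity)
        _ = l1 be := h4
    linarith
  have hq : 0 < c1 * l1 be := by positivity
  refine ⟨fun l => (al * be).coeff l / (c1 * l1 be), ?_, fun y u δ J hu hy x hx => ?_⟩
  · obtain ⟨l, hl, h2⟩ := hex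
    refine ⟨l, hl, ?_⟩
    rw [abs_div, abs_of_pos hq]
    exact (one_le_div hq).2 h2
  · have e1 : ∑ l ∈ range (2 * d + 1), (al * be).coeff l / (c1 * l1 be) * y (x + l) =
        (1 / (c1 * l1 be)) * (aeval E (al * be)) y x := by
      rw [aev' _ (2 * d) hdeg, Finset.mul_sum]
      refine Finset.sum_congr rfl fun l _ => ?_
      ring
    have e2 : (aeval E (al * be)) y x = (aeval E be) ((aeval E al) y - u) x := by
      have h3 : (aeval E be) u x = 0 := by rw [hbe, pol_aev, hu x hx]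
      rw [map_sub, Pi.sub_apply, h3, sub_zero, mul_comm, map_mul]
      rfl
    have h2 : |(aeval E be) ((aeval E al) y - u) x| ≤ l1 be * (c1 * δ) := by
      refine aev_bound be _ x _ fun m hm => ?_
      rw [Pi.sub_apply, pol_aev]
      have h3 : be.natDegree ≤ d := pol_natDegree d β
      exact hy (x + m) (by omega)
    rw [e1, e2, abs_mul, abs_of_pos (by positivity : 0 < 1 / (c1 * l1 be))]
    calc _ ≤ 1 / (c1 * l1 be) * (l1 be * (c1 * δ)) := mul_le_mul_of_nonneg_left h2 (by positivity)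
      _ = δ := by field_simp

end Pool.Agent.P8H60.NR
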