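import Pool.Agent.P8H60.NR.Blk
import Pool.Agent.P8H60.NR.Rhs
import Pool.Agent.P8H21.NR.PartA
import Pool.Agent.P8H21.NR.PartP
import Pool.Agent.P8H56.NR.B

/-! # Almost no run of zeta zeros satisfies a linear recurrence -/

set_option autoImplicit false

namespace Pool.Agent.P8H60.NR

open SG (ord NZ)
open Pool.Agent.R846.UL (cn cn_eq)

/-- coefficients indexed by `Fin` -/
noncomputable def xt {d : ℕ} (a : Fin (d + 1) → ℝ) (l : ℕ) : ℝ := if h : l < d + 1 then a ⟨l, h⟩ else 0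

lemma xt_fin {d : ℕ} (a : Fin (d + 1) → ℝ) (l : Fin (d + 1)) : xt a l = a l := by
  unfold xt
  rw [dif_pos l.2]

lemma xt_sum {d : ℕ} (a : Fin (d + 1) → ℝ) (y : ℕ → ℝ) :
    ∑ l ∈ Finset.range (d + 1), xt a l * y l = ∑ l : Fin (d + 1), a l * y l := by
  rw [Finset.sum_range]
  refine Finset.sum_congr rfl fun l _ => ?_
  rw [xt_fin]

/-- **almost no run of ordinates satisfies a linear recurrence whose right-hand side satisfies a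
linear recurrence** -/
theorem fin_nr (d : ℕ) {η : ℝ} (hη : 0 < η) : ∃ (L : ℕ) (c : ℝ), 0 < c ∧ ∃ N₀ : ℕ,
    ∀ N : ℕ, N₀ ≤ N →
    (({n : ℕ | 1 ≤ n ∧ n ≤ N ∧ ∃ a b : Fin (d + 1) → ℝ, (∃ l, 1 ≤ |a l|) ∧ b ≠ 0 ∧ ∃ u : ℕ → ℝ,
      (∀ j, j + d ≤ L → ∑ l : Fin (d + 1), b l * u (j + l) = 0) ∧
      ∀ j, j ≤ L → |∑ l : Fin (d + 1), a l * ord (n + j + l) - u j| ≤ c / Real.log (ord n)} :
        Set ℕ).ncard : ℝ) ≤ η * N := by
  obtain ⟨c₁, hc₁, hr⟩ := rhs d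
  obtain ⟨L, c, N₀, hc, h⟩ := ord_nr Pool.Agent.P8H21.NR.a Pool.Agent.P8H21.NR.p
    Pool.Agent.P8H56.NR.b (2 * d) hη
  refine ⟨L + d, c₁ * c, by positivity, N₀, fun N hN => ?_⟩
  refine le_trans ?_ (h N hN)
  unfold cn
  have hfin : {n : ℕ | 1 ≤ n ∧ n ≤ N ∧ n ∈ {n | ∃ α : ℕ → ℝ, (∃ l ≤ 2 * d, 1 ≤ |α l|) ∧
      ∀ j ≤ L, |∑ l ∈ Finset.range (2 * d + 1), α l * ord (n + (j + l))| ≤
        c / Real.log (ord n)}}.Finite := (Set.finite_Iic N).subset fun n hn => hn.2.1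
  have hsub : {n : ℕ | 1 ≤ n ∧ n ≤ N ∧ ∃ a b : Fin (d + 1) → ℝ, (∃ l, 1 ≤ |a l|) ∧ b ≠ 0 ∧
      ∃ u : ℕ → ℝ, (∀ j, j + d ≤ L + d → ∑ l : Fin (d + 1), b l * u (j + l) = 0) ∧
      ∀ j, j ≤ L + d → |∑ l : Fin (d + 1), a l * ord (n + j + l) - u j| ≤
        c₁ * c / Real.log (ord n)} ⊆
      {n : ℕ | 1 ≤ n ∧ n ≤ N ∧ n ∈ {n | ∃ α : ℕ → ℝ, (∃ l ≤ 2 * d, 1 ≤ |α l|) ∧
      ∀ j ≤ L, |∑ l ∈ Finset.range (2 * d + 1), α l * ord (n + (j + l))| ≤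
        c / Real.log (ord n)}} := by
    rintro n ⟨h1, h2, a, b, ⟨l, hl⟩, hb, u, hu, hj⟩
    refine ⟨h1, h2, ?_⟩
    obtain ⟨m, hm⟩ : ∃ m, b m ≠ 0 := by
      by_contra hcon
      push Not at hcon
      exact hb (funext hcon)
    obtain ⟨κ, hκ, hκ2⟩ := hr (xt a) (xt b) ⟨l, by omega, by rwa [xt_fin]⟩
      ⟨m, by omega, by rwa [xt_fin]⟩
    refine ⟨κ, hκ, ?_⟩
    have h3 := hκ2 (fun x => ord (n + x)) u (c / Real.log (ord n)) L (fun x hx => by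
      rw [xt_sum b (fun l => u (x + l))]
      exact hu x (by omega)) (fun x hx => by
      rw [xt_sum a (fun l => ord (n + (x + l)))]
      have h4 := hj x hx
      rw [mul_div_assoc] at h4
      have e1 : ∀ l : Fin (d + 1), ord (n + (x + (l : ℕ))) = ord (n + x + l) := fun l => by
        rw [Nat.add_assoc]
      simp only [e1]
      exact h4)
    exact h3
  exact_mod_cast Set.ncard_le_ncard hsub hfin

end Pool.Agent.P8H60.NR
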