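import Mathlib

/-! # From characteristic functions to the probability of a closed set -/

set_option autoImplicit false

namespace Pool.Agent.P8H60.NR

open Filter Topology MeasureTheory ProbabilityTheory Complex

/-- the normalised Lebesgue measure on `[T, 2 * T]` -/
noncomputable def um (T : ℝ) : Measure ℝ :=
  ENNReal.ofReal (1 / T) • volume.restrict (Set.Ioc T (2 * T))

lemma um_prob {T : ℝ} (hT : 0 < T) : IsProbabilityMeasure (um T) := by
  refine ⟨?_⟩
  unfold um
  rw [Measure.smul_apply, smul_eq_mul, Measure.restrict_apply_univ, Real.volume_Ioc,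
    ← ENNReal.ofReal_mul (by positivity)]
  have : 1 / T * (2 * T - T) = 1 := by field_simp; ring
  rw [this, ENNReal.ofReal_one]

lemma um_int {T : ℝ} (hT : 0 < T) (g : ℝ → ℂ) :
    ∫ x, g x ∂(um T) = ((1 / T : ℝ) : ℂ) * ∫ t in T..(2 * T), g t := by
  unfold um
  rw [integral_smul_measure, ENNReal.toReal_ofReal (by positivity),
    intervalIntegral.integral_of_le (by linarith)]
  simp

/-- **Levy's theorem for closed sets** -/
theorem levy_closed {K : ℕ} (T : ℕ → ℝ) (hT : ∀ j, 0 < T j) (Z : ℕ → ℝ → Fin K → ℝ)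
    (hZ : ∀ j, Measurable (Z j))
    (h : ∀ ξ : Fin K → ℝ, Tendsto (fun j => ((1 / T j : ℝ) : ℂ) * ∫ t in (T j)..(2 * T j),
      cexp (I * ((∑ k, ξ k * Z j t k : ℝ) : ℂ))) atTop
      (𝓝 (cexp ((-(∑ k, ξ k ^ 2) / 2 : ℝ) : ℂ))))
    (F : Set (Fin K → ℝ)) (hF : IsClosed F) {η ρ : ℝ}
    (hη : (Measure.pi fun _ : Fin K => gaussianReal 0 1).real F ≤ η) (hρ : 0 < ρ) :
    ∀ᶠ j in atTop, volume {t ∈ Set.Icc (T j) (2 * T j) | Z j t ∈ F} ≤
      ENNReal.ofReal ((η + ρ) * T j) := by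
  have hpr : ∀ j, IsProbabilityMeasure (um (T j)) := fun j => um_prob (hT j)
  have htl : Measurable (WithLp.toLp 2 : (Fin K → ℝ) → EuclideanSpace ℝ (Fin K)) := by fun_prop
  have hm : ∀ j, Measurable fun t => (WithLp.toLp 2 (Z j t) : EuclideanSpace ℝ (Fin K)) := fun j =>
    htl.comp (hZ j)
  set μ : ℕ → ProbabilityMeasure (EuclideanSpace ℝ (Fin K)) := fun j =>
    ⟨(um (T j)).map fun t => WithLp.toLp 2 (Z j t),
      Measure.isProbabilityMeasure_map (hm j).aemeasurable⟩ with hμ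
  set μ₀ : ProbabilityMeasure (EuclideanSpace ℝ (Fin K)) :=
    ⟨stdGaussian (EuclideanSpace ℝ (Fin K)), inferInstance⟩ with hμ₀
  have hlim : Tendsto μ atTop (𝓝 μ₀) := by
    refine ProbabilityMeasure.tendsto_of_tendsto_charFun fun ξ => ?_
    have h1 := h fun k => ξ k
    have e1 : charFun (μ₀ : Measure (EuclideanSpace ℝ (Fin K))) ξ =
        cexp ((-(∑ k, ξ k ^ 2) / 2 : ℝ) : ℂ) := by
      show charFun (stdGaussian (EuclideanSpace ℝ (Fin K))) ξ = _
      rw [charFun_stdGaussian, ← EuclideanSpace.real_norm_sq_eq]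
      push_cast
      rfl
    rw [e1]
    refine h1.congr fun j => ?_
    show _ = charFun ((um (T j)).map fun t => WithLp.toLp 2 (Z j t)) ξ
    rw [charFun_apply, integral_map (hm j).aemeasurable
      (Measurable.aestronglyMeasurable (by fun_prop)), um_int (hT j)]
    congr 1
    refine intervalIntegral.integral_congr fun t _ => ?_
    simp only
    congr 1
    rw [mul_comm]
    congr 2
  have hF' : IsClosed ((WithLp.ofLp : EuclideanSpace ℝ (Fin K) → Fin K → ℝ) ⁻¹' F) :=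
    hF.preimage (PiLp.continuous_ofLp 2 _)
  have h2 := ProbabilityMeasure.limsup_measure_closed_le_of_tendsto hlim hF'
  have e2 : (μ₀ : Measure (EuclideanSpace ℝ (Fin K)))
      ((WithLp.ofLp : EuclideanSpace ℝ (Fin K) → Fin K → ℝ) ⁻¹' F) ≤ ENNReal.ofReal η := by
    show (stdGaussian (EuclideanSpace ℝ (Fin K))) _ ≤ _
    rw [← map_pi_eq_stdGaussian, Measure.map_apply (by fun_prop) hF'.measurableSet]
    have e3 : (WithLp.toLp 2) ⁻¹' ((WithLp.ofLp : EuclideanSpace ℝ (Fin K) → Fin K → ℝ) ⁻¹' F) = F := rfl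
    rw [e3, ← ENNReal.ofReal_toReal (measure_ne_top (Measure.pi fun _ : Fin K => gaussianReal 0 1) F)]
    exact ENNReal.ofReal_le_ofReal hη
  have hη0 : 0 ≤ η := measureReal_nonneg.trans hη
  have h3 : (atTop.limsup fun j => (μ j : Measure (EuclideanSpace ℝ (Fin K)))
      ((WithLp.ofLp : EuclideanSpace ℝ (Fin K) → Fin K → ℝ) ⁻¹' F)) < ENNReal.ofReal (η + ρ) := by
    refine (h2.trans e2).trans_lt ?_
    rw [ENNReal.ofReal_lt_ofReal_iff (by linarith)]
    linarith
  have h4 := eventually_lt_of_limsup_lt h3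
  filter_upwards [h4] with j hj
  have e4 : (μ j : Measure (EuclideanSpace ℝ (Fin K)))
      ((WithLp.ofLp : EuclideanSpace ℝ (Fin K) → Fin K → ℝ) ⁻¹' F) =
      ENNReal.ofReal (1 / T j) * volume ({t | Z j t ∈ F} ∩ Set.Ioc (T j) (2 * T j)) := by
    show ((um (T j)).map fun t => WithLp.toLp 2 (Z j t)) _ = _
    rw [Measure.map_apply (hm j) hF'.measurableSet]
    unfold um
    rw [Measure.smul_apply, smul_eq_mul, Measure.restrict_apply ((hm j) hF'.measurableSet)]
    rfl
  rw [e4] at hj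
  have hTj := hT j
  have h5 : volume {t ∈ Set.Icc (T j) (2 * T j) | Z j t ∈ F} =
      volume ({t | Z j t ∈ F} ∩ Set.Ioc (T j) (2 * T j)) := by
    apply measure_congr
    have h6 : (Set.Ioc (T j) (2 * T j) : Set ℝ) =ᵐ[volume] Set.Icc (T j) (2 * T j) := Ioc_ae_eq_Icc
    have h7 := (ae_eq_refl ({t | Z j t ∈ F})).inter h6
    refine EventuallyEq.trans ?_ h7.symm
    refine Eventually.of_forall fun t => ?_
    exact propext ⟨fun h => ⟨h.2, h.1⟩, fun h => ⟨h.2, h.1⟩⟩
  rw [h5]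
  have h8 : volume ({t | Z j t ∈ F} ∩ Set.Ioc (T j) (2 * T j)) =
      ENNReal.ofReal (T j) * (ENNReal.ofReal (1 / T j) *
        volume ({t | Z j t ∈ F} ∩ Set.Ioc (T j) (2 * T j))) := by
    rw [← mul_assoc, ← ENNReal.ofReal_mul hTj.le]
    have : T j * (1 / T j) = 1 := by field_simp
    rw [this, ENNReal.ofReal_one, one_mul]
  rw [h8, mul_comm (η + ρ), ENNReal.ofReal_mul hTj.le]
  exact mul_le_mul_right hj.le _

end Pool.Agent.P8H60.NR
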