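import Pool.Agent.R321.QA5
import Pool.Agent.P8H60.NR.Levy

/-! # The joint law of the numbers of zeros in nested windows -/

set_option autoImplicit false

namespace Pool.Agent.P8H60.NR

open Filter Topology MeasureTheory Complex
open Pool.Agent.Y743.CL (G G_cont VS pr pr_apply Pr mem_Pr rc er XK rc_bd)
open Pool.Agent.R321.QA
open Pool.Agent.Y41.SW (DP)
open SG (NZ)

variable {lam C : ℝ} {a T : ℕ → ℝ}

/-- the variance for comparable window lengths -/
lemma vs_any (h : SD lam C a T) {η : ℝ} (hη : 0 < η) (u : ℕ → ℝ) (hu1 : ∀ j, η * a j ≤ u j)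
    (hu2 : ∀ j, u j ≤ 3 / 2 * a j) :
    Tendsto (fun j => VS (rc (Real.log (T j) / lam) (hs (u j) (T j))) (XK (kp (a j)) (T j)) /
      Real.log (a j)) atTop (𝓝 (2 / Real.pi ^ 2)) := by
  have hpi := Real.pi_pos
  refine VS_lim h (M := C) (D := 2 / Real.pi ^ 2 * (|Real.log η| + 1)) ?_
  filter_upwards [(h.atop.const_mul_atTop hη).eventually_ge_atTop lam] with j g1
  have ha := h.a16 j
  have hlam := h.lam16
  have c1 := (h.cb j (u j) (g1.trans (hu1 j)) (hu2 j)).2.2
  have hη1 := hu1 j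
  have l1 : Real.log η + Real.log (a j) ≤ Real.log (u j) := by
    rw [← Real.log_mul hη.ne' (by linarith)]
    exact Real.log_le_log (by positivity) hη1
  have l2 : Real.log (u j) ≤ Real.log (a j) + 1 := by
    have h1 : Real.log (u j) ≤ Real.log (3 / 2 * a j) := Real.log_le_log (by linarith) (hu2 j)
    rw [Real.log_mul (by norm_num) (by linarith)] at h1
    have := Real.log_le_sub_one_of_pos (show (0 : ℝ) < 3 / 2 by norm_num)
    linarith
  have l7 := neg_abs_le (Real.log η)
  have l8 := abs_nonneg (Real.log η)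
  have hw : 0 < 2 / Real.pi ^ 2 := by positivity
  have hD : |2 / Real.pi ^ 2 * (Real.log (u j) - Real.log (a j))| ≤
      2 / Real.pi ^ 2 * (|Real.log η| + 1) := by
    rw [abs_mul, abs_of_pos hw]
    refine mul_le_mul_of_nonneg_left ?_ hw.le
    rw [abs_le]
    constructor <;> linarith
  have e1 : VS (rc (Real.log (T j) / lam) (hs (u j) (T j))) (XK (kp (a j)) (T j)) -
      2 / Real.pi ^ 2 * Real.log (a j) = (VS (rc (Real.log (T j) / lam) (hs (u j) (T j)))
      (XK (kp (a j)) (T j)) - 2 / Real.pi ^ 2 * Real.log (u j)) +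
      2 / Real.pi ^ 2 * (Real.log (u j) - Real.log (a j)) := by ring
  rw [e1]
  exact (abs_add_le _ _).trans (add_le_add c1 hD)

lemma rc_mul (l h h' : ℝ) (n : ℕ) : rc l h n * rc l h' n =
    rc l ((h + h') / 2) n ^ 2 - rc l ((h - h') / 2) n ^ 2 := by
  unfold rc
  set L := Real.log n
  have e1 : h / 2 * L = (h + h') / 2 / 2 * L + (h - h') / 2 / 2 * L := by ring
  have e2 : h' / 2 * L = (h + h') / 2 / 2 * L - (h - h') / 2 / 2 * L := by ring
  rw [e1, e2]
  set x := (h + h') / 2 / 2 * L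
  set y := (h - h') / 2 / 2 * L
  have e3 : Real.sin (x + y) * Real.sin (x - y) = Real.sin x ^ 2 - Real.sin y ^ 2 := by
    rw [Real.sin_add, Real.sin_sub]
    have h1 := Real.sin_sq_add_cos_sq x
    have h2 := Real.sin_sq_add_cos_sq y
    have h3 : (Real.sin x * Real.cos y + Real.cos x * Real.sin y) *
      (Real.sin x * Real.cos y - Real.cos x * Real.sin y) =
      Real.sin x ^ 2 * Real.cos y ^ 2 - Real.cos x ^ 2 * Real.sin y ^ 2 := by ring
    rw [h3]
    have h4 : Real.cos x ^ 2 = 1 - Real.sin x ^ 2 := by linarith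
    have h5 : Real.cos y ^ 2 = 1 - Real.sin y ^ 2 := by linarith
    rw [h4, h5]
    ring
  set A := 2 * (1 / Real.sqrt (2 * Real.pi)) * (ArithmeticFunction.vonMangoldt n * (Real.sqrt n)⁻¹ *
    Pool.Agent.TH850.UV.ggo l n)
  have e4 : A * (l / (2 * Real.pi) * (2 * Real.sin (x + y) / L)) *
      (A * (l / (2 * Real.pi) * (2 * Real.sin (x - y) / L))) =
      (A * (l / (2 * Real.pi) * (2 / L))) ^ 2 * (Real.sin (x + y) * Real.sin (x - y)) := by ring
  rw [e4, e3]
  ring

lemma rc_neg (l h : ℝ) (n : ℕ) : rc l (-h) n = - rc l h n := by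
  unfold rc
  have e1 : -h / 2 * Real.log n = -(h / 2 * Real.log n) := by ring
  rw [e1, Real.sin_neg]
  ring

lemma rc_abs (l h : ℝ) (n : ℕ) : rc l h n ^ 2 = rc l |h| n ^ 2 := by
  rcases abs_cases h with ⟨h1, _⟩ | ⟨h1, _⟩
  · rw [h1]
  · rw [h1, rc_neg, neg_sq]

lemma rc_zero (l : ℝ) (n : ℕ) : rc l 0 n = 0 := by
  unfold rc
  simp

/-- the variance of a combination -/
lemma VS_comb {K : ℕ} (l : ℝ) (h : Fin K → ℝ) (ξ : Fin K → ℝ) (X : ℕ) :
    VS (fun p => ∑ k, ξ k * rc l (h k) p) X = ∑ k, ∑ k', ξ k * ξ k' *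
      (VS (rc l ((h k + h k') / 2)) X - VS (rc l |(h k - h k') / 2|) X) := by
  unfold VS
  have e1 : ∀ p : ℕ, (∑ k, ξ k * rc l (h k) p) ^ 2 = ∑ k, ∑ k', ξ k * ξ k' *
      (rc l ((h k + h k') / 2) p ^ 2 - rc l |(h k - h k') / 2| p ^ 2) := by
    intro p
    rw [pow_two, Finset.sum_mul_sum]
    refine Finset.sum_congr rfl fun k _ => Finset.sum_congr rfl fun k' _ => ?_
    rw [← rc_abs, ← rc_mul]
    ring
  simp only [e1]
  rw [Finset.sum_comm]
  refine Finset.sum_congr rfl fun k _ => ?_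
  rw [Finset.sum_comm]
  refine Finset.sum_congr rfl fun k' _ => ?_
  rw [← Finset.sum_sub_distrib, Finset.mul_sum]

/-- linearity of the prime polynomial in the coefficients -/
lemma G_comb {K : ℕ} (c : Fin K → ℕ → ℝ) (ξ : Fin K → ℝ) (X : ℕ) (t : ℝ) :
    G (fun p => ∑ k, ξ k * c k p) X t = ∑ k, (ξ k : ℂ) * G (c k) X t := by
  unfold G DP
  simp only [Finset.mul_sum]
  rw [Finset.sum_comm]
  refine Finset.sum_congr rfl fun n hn => ?_
  rw [pr_apply]
  simp only [pr_apply]
  split_ifs with hp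
  · push_cast
    rw [Finset.sum_mul]
    exact Finset.sum_congr rfl fun k _ => by ring
  · simp

/-- the lengths of the windows -/
noncomputable def bk (K k : ℕ) (a : ℝ) : ℝ := ((K : ℝ) + k) / (2 * K) * a

/-- the left ends of the windows -/
noncomputable def sk (K k : ℕ) (a : ℝ) : ℝ := ((K : ℝ) - k) / (4 * K) * a

/-- the normalised deviations of the numbers of zeros in nested windows -/
noncomputable def zt (K : ℕ) (a T t : ℝ) (k : Fin K) : ℝ :=
  Real.pi / Real.sqrt (Real.log a) * (bk K k a -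
    ((NZ (t + hs (sk K k a) T + hs (bk K k a) T) : ℝ) - NZ (t + hs (sk K k a) T)))

lemma zt_er {K : ℕ} (lam κ T a t : ℝ) (k : Fin K) : zt K a T t k = Real.pi / Real.sqrt (Real.log a) *
    ((G (rc (Real.log T / lam) (hs (bk K k a) T)) (XK κ T) (t + hs (a / 2) T)).re -
      er lam κ T (bk K k a) (t + hs (sk K k a) T)) := by
  have hK : (0 : ℝ) < K := by exact_mod_cast (Fin.pos k)
  have e1 : t + hs (sk K k a) T + 2 * Real.pi * bk K k a / Real.log T / 2 = t + hs (a / 2) T := by
    unfold hs sk bk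
    field_simp
    ring
  unfold zt er
  rw [e1]
  unfold hs
  ring

lemma zt_meas (K : ℕ) (a T : ℝ) : Measurable (zt K a T) := by
  refine measurable_pi_iff.2 fun k => ?_
  unfold zt
  have h1 : Measurable fun t : ℝ => (NZ t : ℝ) := measurable_from_nat.comp (SG.NZ_mono.measurable)
  have h2 : Measurable fun t : ℝ => (NZ (t + hs (sk K k a) T + hs (bk K k a) T) : ℝ) :=
    h1.comp ((measurable_id.add_const _).add_const _)
  have h3 : Measurable fun t : ℝ => (NZ (t + hs (sk K k a) T) : ℝ) :=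
    h1.comp (measurable_id.add_const _)
  exact ((h2.sub h3).const_sub _).const_mul _

end Pool.Agent.P8H60.NR
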