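import Pool.Agent.P8H60.NR.Joint

/-! # The joint law of the numbers of zeros in nested windows, continued -/

set_option autoImplicit false

namespace Pool.Agent.P8H60.NR

open Filter Topology MeasureTheory Complex
open Pool.Agent.Y743.CL (G G_cont VS pr pr_apply Pr mem_Pr rc er XK rc_bd)
open Pool.Agent.R321.QA
open SG (NZ)

variable {lam C : ℝ} {a T : ℕ → ℝ}

lemma hs_lin (x y T : ℝ) : (hs x T + hs y T) / 2 = hs ((x + y) / 2) T := by
  unfold hs; ring

lemma hs_abs {x T : ℝ} (hT : 0 < Real.log T) : |hs x T| = hs |x| T := by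
  unfold hs
  have hpi := Real.pi_pos
  rw [abs_div, abs_mul, abs_of_pos (by positivity : 0 < 2 * Real.pi), abs_of_pos hT]

/-- the combination of the coefficients -/
noncomputable def cc {K : ℕ} (ξ : Fin K → ℝ) (lam a T : ℝ) (p : ℕ) : ℝ :=
  ∑ k, ξ k * rc (Real.log T / lam) (hs (bk K k a) T) p

lemma bk_pos {K : ℕ} (hK : 1 ≤ K) (k : ℕ) {a : ℝ} (ha : 0 < a) : a / 2 ≤ bk K k a := by
  have hK0 : (0 : ℝ) < K := by exact_mod_cast hK
  have hk0 : (0 : ℝ) ≤ k := Nat.cast_nonneg k
  unfold bk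
  have : (1 : ℝ) / 2 ≤ ((K : ℝ) + k) / (2 * K) := by
    rw [div_le_div_iff₀ (by norm_num) (by positivity)]
    linarith
  calc a / 2 = 1 / 2 * a := by ring
    _ ≤ _ := mul_le_mul_of_nonneg_right this ha.le

lemma bk_le {K : ℕ} {k : ℕ} (hk : k < K) {a : ℝ} (ha : 0 < a) : bk K k a ≤ a := by
  have hk1 : (k : ℝ) ≤ K := by exact_mod_cast hk.le
  have hK0 : (0 : ℝ) < K := by exact_mod_cast (by omega : 0 < K)
  unfold bk
  have : ((K : ℝ) + k) / (2 * K) ≤ 1 := by
    rw [div_le_one (by positivity)]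
    linarith
  calc _ ≤ 1 * a := mul_le_mul_of_nonneg_right this ha.le
    _ = a := one_mul a

lemma sk_bd {K : ℕ} {k : ℕ} (hk : k < K) {a : ℝ} (ha : 0 < a) : 0 ≤ sk K k a ∧ sk K k a ≤ a / 4 := by
  have hk1 : (k : ℝ) ≤ K := by exact_mod_cast hk.le
  have hk0 : (0 : ℝ) ≤ k := Nat.cast_nonneg k
  have hK0 : (0 : ℝ) < K := by exact_mod_cast (by omega : 0 < K)
  unfold sk
  constructor
  · have : (0 : ℝ) ≤ K - k := by linarith
    positivity
  · have : ((K : ℝ) - k) / (4 * K) ≤ 1 / 4 := by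
      rw [div_le_div_iff₀ (by positivity) (by norm_num)]
      linarith
    calc _ ≤ 1 / 4 * a := mul_le_mul_of_nonneg_right this ha.le
      _ = a / 4 := by ring

/-- the limit of the variance of a combination -/
lemma vs_cc (h : SD lam C a T) {K : ℕ} (ξ : Fin K → ℝ) :
    Tendsto (fun j => VS (cc ξ lam (a j) (T j)) (XK (kp (a j)) (T j)) / Real.log (a j)) atTop
      (𝓝 (2 / Real.pi ^ 2 * ∑ k, ξ k ^ 2)) := by
  have hpi := Real.pi_pos
  have ha0 : ∀ j, 0 < a j := fun j => by linarith [h.a16 j]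
  have h1 : ∀ k k' : Fin K, Tendsto (fun j => (VS (rc (Real.log (T j) / lam)
      ((hs (bk K k (a j)) (T j) + hs (bk K k' (a j)) (T j)) / 2)) (XK (kp (a j)) (T j)) -
      VS (rc (Real.log (T j) / lam) |(hs (bk K k (a j)) (T j) - hs (bk K k' (a j)) (T j)) / 2|)
        (XK (kp (a j)) (T j))) / Real.log (a j)) atTop
      (𝓝 (2 / Real.pi ^ 2 * if k = k' then 1 else 0)) := by
    intro k k'
    have hK : 1 ≤ K := Fin.pos k
    have hK0 : (0 : ℝ) < K := by exact_mod_cast hK
    have g1 := vs_any h (η := 1 / 2) (by norm_num) (fun j => (bk K k (a j) + bk K k' (a j)) / 2)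
      (fun j => by
        have := bk_pos hK k (ha0 j)
        have := bk_pos hK k' (ha0 j)
        linarith)
      (fun j => by
        have := bk_le k.2 (ha0 j)
        have := bk_le k'.2 (ha0 j)
        have := ha0 j
        linarith)
    by_cases hkk : k = k'
    · subst hkk
      rw [if_pos rfl, mul_one]
      refine g1.congr fun j => ?_
      have e1 : VS (rc (Real.log (T j) / lam) |(hs (bk K k (a j)) (T j) - hs (bk K k (a j)) (T j)) / 2|)
        (XK (kp (a j)) (T j)) = 0 := by
        rw [sub_self, zero_div, abs_zero]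
        unfold VS
        refine Finset.sum_eq_zero fun p _ => ?_
        rw [rc_zero]
        norm_num
      rw [e1, sub_zero, hs_lin]
    · rw [if_neg hkk, mul_zero]
      have hne : (1 : ℝ) ≤ |((k : ℕ) : ℝ) - ((k' : ℕ) : ℝ)| := by
        have h1 : ((k : ℕ) : ℤ) - ((k' : ℕ) : ℤ) ≠ 0 := by
          intro h2
          apply hkk
          apply Fin.ext
          omega
        have h2 := Int.one_le_abs h1
        exact_mod_cast h2
      have hle : |((k : ℕ) : ℝ) - ((k' : ℕ) : ℝ)| ≤ K := by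
        have a1 : ((k : ℕ) : ℝ) ≤ K := by exact_mod_cast k.2.le
        have a2 : ((k' : ℕ) : ℝ) ≤ K := by exact_mod_cast k'.2.le
        have a3 : (0 : ℝ) ≤ ((k : ℕ) : ℝ) := Nat.cast_nonneg _
        have a4 : (0 : ℝ) ≤ ((k' : ℕ) : ℝ) := Nat.cast_nonneg _
        rw [abs_le]
        constructor <;> linarith
      have g2 := vs_any h (η := 1 / (4 * K)) (by positivity)
        (fun j => |((k : ℕ) : ℝ) - ((k' : ℕ) : ℝ)| / (4 * K) * a j)
        (fun j => by
          apply mul_le_mul_of_nonneg_right _ (ha0 j).le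
          exact div_le_div_of_nonneg_right hne (by positivity))
        (fun j => by
          apply mul_le_mul_of_nonneg_right _ (ha0 j).le
          rw [div_le_iff₀ (by positivity)]
          linarith)
      have g3 := g1.sub g2
      rw [sub_self] at g3
      refine g3.congr fun j => ?_
      have e1 : |(hs (bk K k (a j)) (T j) - hs (bk K k' (a j)) (T j)) / 2| =
          hs (|((k : ℕ) : ℝ) - ((k' : ℕ) : ℝ)| / (4 * K) * a j) (T j) := by
        have e2 : (hs (bk K k (a j)) (T j) - hs (bk K k' (a j)) (T j)) / 2 =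
            hs ((((k : ℕ) : ℝ) - ((k' : ℕ) : ℝ)) / (4 * K) * a j) (T j) := by
          unfold hs bk
          field_simp
          ring
        rw [e2, hs_abs (h.L0 j), abs_mul, abs_div, abs_of_pos (ha0 j), abs_of_pos (by positivity : (0 : ℝ) < 4 * K)]
      rw [e1, hs_lin, sub_div]
  have h2 : Tendsto (fun j => ∑ k : Fin K, ∑ k' : Fin K, ξ k * ξ k' * ((VS (rc (Real.log (T j) / lam)
      ((hs (bk K k (a j)) (T j) + hs (bk K k' (a j)) (T j)) / 2)) (XK (kp (a j)) (T j)) -
      VS (rc (Real.log (T j) / lam) |(hs (bk K k (a j)) (T j) - hs (bk K k' (a j)) (T j)) / 2|)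
        (XK (kp (a j)) (T j))) / Real.log (a j))) atTop
      (𝓝 (∑ k : Fin K, ∑ k' : Fin K, ξ k * ξ k' * (2 / Real.pi ^ 2 * if k = k' then 1 else 0))) :=
    tendsto_finsetSum _ fun k _ => tendsto_finsetSum _ fun k' _ => (h1 k k').const_mul _
  have e3 : ∑ k : Fin K, ∑ k' : Fin K, ξ k * ξ k' * (2 / Real.pi ^ 2 * if k = k' then 1 else 0) =
      2 / Real.pi ^ 2 * ∑ k, ξ k ^ 2 := by
    rw [Finset.mul_sum]
    refine Finset.sum_congr rfl fun k _ => ?_
    simp
    ring
  rw [e3] at h2
  refine h2.congr fun j => ?_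
  have e4 : VS (cc ξ lam (a j) (T j)) (XK (kp (a j)) (T j)) = ∑ k, ∑ k', ξ k * ξ k' *
      (VS (rc (Real.log (T j) / lam) ((hs (bk K k (a j)) (T j) + hs (bk K k' (a j)) (T j)) / 2))
        (XK (kp (a j)) (T j)) -
      VS (rc (Real.log (T j) / lam) |(hs (bk K k (a j)) (T j) - hs (bk K k' (a j)) (T j)) / 2|)
        (XK (kp (a j)) (T j))) :=
    VS_comb (Real.log (T j) / lam) (fun k : Fin K => hs (bk K k (a j)) (T j)) ξ _
  rw [e4, Finset.sum_div]
  refine Finset.sum_congr rfl fun k _ => ?_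
  rw [Finset.sum_div]
  refine Finset.sum_congr rfl fun k' _ => ?_
  ring

/-- **the joint characteristic function** -/
theorem cfV (h : SD lam C a T) (h2 : ∀ j, 2 * lam ≤ a j) {K : ℕ} (ξ : Fin K → ℝ) : Tendsto (fun j => ((1 / T j : ℝ) : ℂ) *
    ∫ t in (T j)..(2 * T j), cexp (I * ((∑ k, ξ k * zt K (a j) (T j) t k : ℝ) : ℂ))) atTop
    (𝓝 (cexp ((-(∑ k, ξ k ^ 2) / 2 : ℝ) : ℂ))) := by
  have hpi := Real.pi_pos
  have hT0 : ∀ j, 0 < T j := fun j => by linarith [h.T10 j]
  have ha0 : ∀ j, 0 < a j := fun j => by linarith [h.a16 j]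
  rcases (Finset.sum_nonneg fun k _ => sq_nonneg (ξ k) : 0 ≤ ∑ k, ξ k ^ 2).eq_or_lt with h0 | hpos
  · have hz : ∀ k, ξ k = 0 := by
      intro k
      have := (Finset.sum_eq_zero_iff_of_nonneg (fun k _ => sq_nonneg (ξ k))).1 h0.symm k (Finset.mem_univ k)
      exact pow_eq_zero_iff (two_ne_zero) |>.1 this
    rw [← h0]
    simp only [neg_zero, zero_div, Complex.ofReal_zero, Complex.exp_zero]
    refine tendsto_const_nhds.congr fun j => ?_
    have e1 : ∀ t, cexp (I * ((∑ k, ξ k * zt K (a j) (T j) t k : ℝ) : ℂ)) = 1 := by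
      intro t
      have : ∑ k, ξ k * zt K (a j) (T j) t k = 0 := Finset.sum_eq_zero fun k _ => by rw [hz k, zero_mul]
      rw [this]
      simp
    simp only [e1]
    rw [intervalIntegral.integral_const]
    have e2 : 2 * T j - T j = T j := by ring
    have := (hT0 j).ne'
    rw [e2, Complex.real_smul, mul_one, ← Complex.ofReal_mul, one_div, inv_mul_cancel₀ this]
    simp
  set ρ2 := ∑ k, ξ k ^ 2 with hρ2
  have hm : (0 : ℝ) < 2 / Real.pi ^ 2 * ρ2 := by positivity
  set X : ℕ → ℕ := fun j => XK (kp (a j)) (T j) with hX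
  set N : ℕ → ℝ := fun j => Real.sqrt (2 / Real.pi ^ 2 * ρ2) * Real.sqrt (Real.log (a j)) with hN
  have hsq : Real.sqrt (2 / Real.pi ^ 2 * ρ2) = Real.sqrt 2 / Real.pi * Real.sqrt ρ2 := by
    rw [Real.sqrt_mul (by positivity), Real.sqrt_div (by norm_num), Real.sqrt_sq hpi.le]
  have hA : ∀ j, T j ≤ T j + Real.log (T j) := fun j => by linarith [h.L0 j]
  have hAB : ∀ j, T j + Real.log (T j) ≤ 2 * T j - Real.log (T j) - 17 := fun j => by
    linarith [h.Tlog j, hT0 j]
  have hB : ∀ j, 2 * T j - Real.log (T j) - 17 ≤ 2 * T j := fun j => by linarith [h.L0 j]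
  have hcbd : ∀ (j p : ℕ), cc ξ lam (a j) (T j) p ^ 2 ≤ ρ2 * K := by
    intro j p
    unfold cc
    refine (Finset.sum_mul_sq_le_sq_mul_sq _ _ _).trans ?_
    refine mul_le_mul_of_nonneg_left ?_ hpos.le
    calc ∑ k : Fin K, rc (Real.log (T j) / lam) (hs (bk K k (a j)) (T j)) p ^ 2
        ≤ ∑ k : Fin K, (1 : ℝ) := Finset.sum_le_sum fun k _ =>
          rc_bd (div_pos (h.L0 j) (by linarith [h.lam16])) _ p
      _ = K := by simp
  have hcf := cf_poly T (fun j => T j + Real.log (T j) + hs (a j / 2) (T j))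
    (fun j => 2 * T j - Real.log (T j) - 17 + hs (a j / 2) (T j)) X
    (fun j => cc ξ lam (a j) (T j)) N
    (M := ρ2 * K) hcbd h.Ttop hT0
    (fun j => by linarith [hAB j])
    (h.len.congr fun j => by ring)
    (fun j => by
      simp only [hX]
      unfold XK
      apply Nat.le_floor
      push_cast
      exact Real.one_le_rpow (by linarith [h.T10 j]) (by have := h.la j; unfold kp; positivity))
    h.hX (div_atTop_of hm h (vs_cc h ξ)) (sqrt_ratio hm (vs_cc h ξ) h) 1 (by simp) (Real.sqrt ρ2)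
  rw [Real.sq_sqrt hpos.le] at hcf
  -- the shifted windows
  have hs7 : ∀ (j : ℕ) (k : Fin K), 0 ≤ hs (sk K k (a j)) (T j) ∧ hs (sk K k (a j)) (T j) ≤ 7 := by
    intro j k
    obtain ⟨h1, h2⟩ := sk_bd k.2 (ha0 j)
    have h3 := h.L0 j
    constructor
    · unfold hs; positivity
    · refine le_trans ?_ (h.h7 j)
      unfold hs
      have := ha0 j
      gcongr
      linarith
  have hi : ∀ (j : ℕ) (k : Fin K), IntervalIntegrable (fun t => er lam (kp (a j)) (T j) (bk K k (a j))
      (t + hs (sk K k (a j)) (T j)) ^ 2) volume (T j + Real.log (T j)) (2 * T j - Real.log (T j) - 17) ∧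
      ∫ t in (T j + Real.log (T j))..(2 * T j - Real.log (T j) - 17),
        er lam (kp (a j)) (T j) (bk K k (a j)) (t + hs (sk K k (a j)) (T j)) ^ 2 ≤ C * qq (a j) * T j := by
    intro j k
    have hK : 1 ≤ K := Fin.pos k
    obtain ⟨i1, i2, -⟩ := h.cb j (bk K k (a j)) (by
      have := bk_pos hK k (ha0 j)
      have := h2 j
      linarith) (by
      have := bk_le k.2 (ha0 j)
      have := ha0 j
      linarith)
    obtain ⟨h0, h7⟩ := hs7 j k
    set σ := hs (sk K k (a j)) (T j) with hσ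
    have i3 : IntervalIntegrable (fun t => er lam (kp (a j)) (T j) (bk K k (a j)) t ^ 2) volume
        (T j + Real.log (T j) + σ) (2 * T j - Real.log (T j) - 17 + σ) := by
      refine i1.mono_set ?_
      rw [Set.uIcc_of_le (by linarith [hAB j]), Set.uIcc_of_le (by linarith [hAB j])]
      exact Set.Icc_subset_Icc (by linarith) (by linarith)
    refine ⟨?_, ?_⟩
    · have i4 := i3.comp_add_right σ
      simpa using i4
    · rw [intervalIntegral.integral_comp_add_right
          (fun t => er lam (kp (a j)) (T j) (bk K k (a j)) t ^ 2) σ]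
      refine le_trans ?_ i2
      exact intervalIntegral.integral_mono_interval (by linarith) (by linarith [hAB j])
          (by linarith) (Eventually.of_forall fun t => sq_nonneg _) i1
  have key := trans_lim T (fun j => T j + Real.log (T j)) (fun j => 2 * T j - Real.log (T j) - 17)
    (fun j t => Real.sqrt ρ2 * (Real.sqrt 2 * (1 * G (cc ξ lam (a j) (T j)) (X j)
      (t + hs (a j / 2) (T j)) / (N j : ℂ)).re))
    (fun j t => ∑ k, ξ k * zt K (a j) (T j) t k)
    (fun j t => Real.pi ^ 2 * ρ2 / Real.log (a j) * ∑ k : Fin K, er lam (kp (a j)) (T j) (bk K k (a j))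
      (t + hs (sk K k (a j)) (T j)) ^ 2) (cexp ((-ρ2 / 2 : ℝ) : ℂ)) 1 hT0 hA hAB hB
    h.len (fun j => ?_) (fun j => ?_) (fun j => ?_) ?_ (fun j t ht => ?_) ?_
  · refine key.congr fun j => ?_
    simp only [one_mul]
  · have hc1 : Continuous fun t : ℝ => Real.sqrt ρ2 * (Real.sqrt 2 * (1 * G (cc ξ lam (a j) (T j)) (X j)
        (t + hs (a j / 2) (T j)) / (N j : ℂ)).re) :=
      continuous_const.mul (continuous_const.mul (Complex.continuous_re.comp
        ((continuous_const.mul ((G_cont _ _).comp (by fun_prop))).div_const _)))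
    exact hc1.measurable
  · exact Finset.measurable_fun_sum _ fun k _ =>
      ((measurable_pi_apply k).comp (zt_meas K (a j) (T j))).const_mul _
  · refine IntervalIntegrable.const_mul ?_ _
    have := IntervalIntegrable.sum Finset.univ (f := fun (k : Fin K) t => er lam (kp (a j)) (T j)
      (bk K k (a j)) (t + hs (sk K k (a j)) (T j)) ^ 2) (μ := volume)
      (a := T j + Real.log (T j)) (b := 2 * T j - Real.log (T j) - 17) (fun k _ => (hi j k).1)
    refine this.congr (fun t _ => ?_)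
    simp [Finset.sum_apply]
  · refine squeeze_zero (fun j => ?_) (fun j => ?_) (h.ee (Real.pi ^ 2 * ρ2 * K) (by positivity))
    · refine mul_nonneg (by have := hT0 j; positivity) ?_
      refine intervalIntegral.integral_nonneg (hAB j) fun t _ => ?_
      have := h.la j
      have h3 : 0 ≤ ∑ k : Fin K, er lam (kp (a j)) (T j) (bk K k (a j))
        (t + hs (sk K k (a j)) (T j)) ^ 2 := Finset.sum_nonneg fun k _ => sq_nonneg _
      positivity
    · have hTj := hT0 j
      have hla := h.la j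
      refine mul_le_mul_of_nonneg_left ?_ (by positivity)
      rw [intervalIntegral.integral_const_mul,
        intervalIntegral.integral_finset_sum (fun k _ => (hi j k).1)]
      have h3 : ∑ k : Fin K, ∫ t in (T j + Real.log (T j))..(2 * T j - Real.log (T j) - 17),
          er lam (kp (a j)) (T j) (bk K k (a j)) (t + hs (sk K k (a j)) (T j)) ^ 2 ≤
          K * (C * qq (a j) * T j) := by
        calc _ ≤ ∑ k : Fin K, C * qq (a j) * T j := Finset.sum_le_sum fun k _ => (hi j k).2
          _ = _ := by rw [Finset.sum_const, Finset.card_univ, Fintype.card_fin, nsmul_eq_mul]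
      calc _ ≤ Real.pi ^ 2 * ρ2 / Real.log (a j) * (K * (C * qq (a j) * T j)) :=
            mul_le_mul_of_nonneg_left h3 (by positivity)
        _ = _ := by ring
  · have hla := h.la j
    have hsl : 0 < Real.sqrt (Real.log (a j)) := Real.sqrt_pos.2 (by linarith)
    have hs2 : 0 < Real.sqrt 2 := Real.sqrt_pos.2 (by norm_num)
    have hsρ : 0 < Real.sqrt ρ2 := Real.sqrt_pos.2 hpos
    have e1 : ∑ k, ξ k * zt K (a j) (T j) t k - Real.sqrt ρ2 * (Real.sqrt 2 *
        (1 * G (cc ξ lam (a j) (T j)) (X j) (t + hs (a j / 2) (T j)) / (N j : ℂ)).re) =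
        -(Real.pi / Real.sqrt (Real.log (a j)) * ∑ k : Fin K, ξ k * er lam (kp (a j)) (T j)
          (bk K k (a j)) (t + hs (sk K k (a j)) (T j))) := by
      have e2 : G (cc ξ lam (a j) (T j)) (X j) (t + hs (a j / 2) (T j)) = ∑ k : Fin K, (ξ k : ℂ) *
          G (rc (Real.log (T j) / lam) (hs (bk K k (a j)) (T j))) (X j) (t + hs (a j / 2) (T j)) :=
        G_comb (fun k : Fin K => rc (Real.log (T j) / lam) (hs (bk K k (a j)) (T j))) ξ _ _
      rw [Complex.div_ofReal_re, one_mul, e2, Complex.re_sum]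
      simp only [Complex.re_ofReal_mul]
      have e3 : ∑ k, ξ k * zt K (a j) (T j) t k = Real.pi / Real.sqrt (Real.log (a j)) *
          (∑ k : Fin K, ξ k * (G (rc (Real.log (T j) / lam) (hs (bk K k (a j)) (T j))) (X j)
            (t + hs (a j / 2) (T j))).re) - Real.pi / Real.sqrt (Real.log (a j)) *
          ∑ k : Fin K, ξ k * er lam (kp (a j)) (T j) (bk K k (a j)) (t + hs (sk K k (a j)) (T j)) := by
        rw [← mul_sub, ← Finset.sum_sub_distrib, Finset.mul_sum]
        refine Finset.sum_congr rfl fun k _ => ?_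
        rw [zt_er lam (kp (a j))]
        ring
      rw [e3]
      simp only [hN, hsq]
      field_simp
      ring
    rw [e1, neg_sq, mul_pow, div_pow, Real.sq_sqrt (by linarith)]
    have h4 := Finset.sum_mul_sq_le_sq_mul_sq Finset.univ ξ (fun k : Fin K => er lam (kp (a j)) (T j)
      (bk K k (a j)) (t + hs (sk K k (a j)) (T j)))
    calc _ ≤ Real.pi ^ 2 / Real.log (a j) * (ρ2 * ∑ k : Fin K, er lam (kp (a j)) (T j) (bk K k (a j))
          (t + hs (sk K k (a j)) (T j)) ^ 2) := mul_le_mul_of_nonneg_left h4 (by positivity)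
      _ = _ := by ring
  · refine hcf.congr fun j => ?_
    congr 1
    rw [← intervalIntegral.integral_comp_add_right (fun t => cexp (I * ((Real.sqrt ρ2 * (Real.sqrt 2 *
      (1 * G (cc ξ lam (a j) (T j)) (X j) t / (N j : ℂ)).re) : ℝ) : ℂ))) (hs (a j / 2) (T j))]
    simp only [one_mul]

/-- **the law of the vector of the numbers of zeros in nested windows** -/
theorem joint (B : ℝ) (hB : 1 ≤ B) {K : ℕ} (F : Set (Fin K → ℝ)) (hF : IsClosed F) {η ρ : ℝ}
    (hη : (Measure.pi fun _ : Fin K => ProbabilityTheory.gaussianReal 0 1).real F ≤ η) (hρ : 0 < ρ) :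
    ∃ R : ℝ, 3 ≤ R ∧ ∀ a T : ℝ, R ≤ a → 1 ≤ T → a * Real.log a ≤ B * Real.log T →
    volume {t ∈ Set.Icc T (2 * T) | zt K a T t ∈ F} ≤ ENNReal.ofReal ((η + ρ) * T) := by
  obtain ⟨A0, lam, C, hA0, hseq⟩ := sd_mk B hB
  by_contra hcon
  push Not at hcon
  have hch : ∀ j : ℕ, ∃ x : ℝ × ℝ, max A0 (2 * lam) + j ≤ x.1 ∧ 1 ≤ x.2 ∧
      x.1 * Real.log x.1 ≤ B * Real.log x.2 ∧
      ENNReal.ofReal ((η + ρ) * x.2) < volume {t ∈ Set.Icc x.2 (2 * x.2) | zt K x.1 x.2 t ∈ F} := by
    intro j
    obtain ⟨a, T, h1, h2, h3, h4⟩ := hcon (max A0 (2 * lam) + j)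
      (by
        have : (0 : ℝ) ≤ j := Nat.cast_nonneg j
        have := le_max_left A0 (2 * lam)
        linarith)
    exact ⟨(a, T), h1, h2, h3, h4⟩
  choose x hx using hch
  have hj0 : ∀ j : ℕ, (0 : ℝ) ≤ j := fun j => Nat.cast_nonneg j
  have hsd := hseq (fun j => (x j).1) (fun j => (x j).2)
    (fun j => by
      have h1 := (hx j).1
      have h2 := le_max_left A0 (2 * lam)
      have h3 := hj0 j
      linarith) (fun j => (hx j).2.1)
    (tendsto_atTop_mono (fun j => by
      have h1 := (hx j).1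
      have h2 := le_max_left A0 (2 * lam)
      linarith) tendsto_natCast_atTop_atTop)
    (fun j => (hx j).2.2.1)
  have h := levy_closed (fun j => (x j).2) (fun j => by have := (hx j).2.1; linarith)
    (fun j t => zt K (x j).1 (x j).2 t) (fun j => zt_meas K _ _)
    (fun ξ => cfV hsd (fun j => by
      have h1 := (hx j).1
      have h2 := le_max_right A0 (2 * lam)
      have h3 := hj0 j
      linarith) ξ) F hF hη hρ
  obtain ⟨j, hj⟩ := h.exists
  exact absurd (hx j).2.2.2 (not_lt.2 hj)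

end Pool.Agent.P8H60.NR
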