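import Pool.Agent.P8H60.NR.Det

/-! # The theorem for the run following a height -/

set_option autoImplicit false

namespace Pool.Agent.P8H60.NR

open Filter Topology MeasureTheory
open Pool.Agent.R321.QA (hs)
open Pool.Agent.R846.VS
open SG (NZ ord)

/-- **for most heights the run of ordinates following them satisfies no linear recurrence** -/
theorem run_nr (hA : S_A) (hP : S_P) (hB : S_B) (d : ℕ) {η : ℝ} (hη : 0 < η) :
    ∃ (L : ℕ) (c T₀ : ℝ), 0 < c ∧ ∀ T : ℝ, T₀ ≤ T →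
    volume {t ∈ Set.Icc T (2 * T) | ∃ α : ℕ → ℝ, (∃ l ≤ d, 1 ≤ |α l|) ∧
      ∀ j ≤ L, |∑ l ∈ Finset.range (d + 1), α l * ord (NZ t + 1 + (j + l))| ≤ c / Real.log T} ≤
      ENNReal.ofReal (η * T) := by
  have hpi := Real.pi_pos
  have hpi2 := Real.pi_lt_d2
  obtain ⟨cP, hcP, hP'⟩ := hP d 2 le_rfl
  obtain ⟨D₀, hD₀⟩ : ∃ D₀ : ℕ, D₀ = d + 2 := ⟨_, rfl⟩
  rw [← hD₀] at hP'
  obtain ⟨K₀, hK₀⟩ := hB (2 * D₀) (η / 4) (by positivity)
  obtain ⟨K, hK⟩ : ∃ K : ℕ, K = max K₀ 1 := ⟨_, rfl⟩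
  have hK1 : 1 ≤ K := by rw [hK]; exact le_max_right _ _
  have hKK : K₀ ≤ K := by rw [hK]; exact le_max_left _ _
  obtain ⟨R₁, hR₁, hjoint⟩ := joint 1 le_rfl (FK (2 * D₀) K) (FK_closed _ _) (hK₀ K hKK)
    (show (0 : ℝ) < η / 4 by positivity)
  obtain ⟨ε₀, hε₀⟩ : ∃ ε₀ : ℝ, ε₀ = 1 / (256 * (2 * D₀ + 1)) := ⟨_, rfl⟩
  have hε₀0 : 0 < ε₀ := by rw [hε₀]; positivity
  obtain ⟨A₁, hA₁, hnear⟩ := near_all (η := η / 2) (by positivity) hε₀0 K hK1
  obtain ⟨s, hs⟩ : ∃ s : ℕ, s = D₀ + ⌈R₁⌉₊ + ⌈A₁⌉₊ + 1 := ⟨_, rfl⟩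
  obtain ⟨a, ha⟩ : ∃ a : ℕ, a = 4 * K * s := ⟨_, rfl⟩
  have hsa : s ≤ a := by
    rw [ha]
    exact Nat.le_mul_of_pos_left _ (by omega)
  have haR : R₁ ≤ a := (Nat.le_ceil R₁).trans (by exact_mod_cast (by omega : ⌈R₁⌉₊ ≤ a))
  have haA : A₁ ≤ a := (Nat.le_ceil A₁).trans (by exact_mod_cast (by omega : ⌈A₁⌉₊ ≤ a))
  have ha3 : (3 : ℝ) ≤ a := hA₁.trans haA
  have hla : 1 ≤ Real.log a := by
    rw [Real.le_log_iff_exp_le (by linarith)]
    linarith [Real.exp_one_lt_d9]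
  obtain ⟨CA, hCA, hA'⟩ := hA D₀ s (by omega)
  obtain ⟨δ, hδ⟩ : ∃ δ : ℝ, δ = 1 / (128 * CA) := ⟨_, rfl⟩
  have hδ0 : 0 < δ := by rw [hδ]; positivity
  refine ⟨a + 2, 2 * Real.pi * (cP * δ), Real.exp (a * Real.log a) + 1, by positivity,
    fun T hT => ?_⟩
  have hexp := Real.exp_pos (a * Real.log a)
  have hT1 : 1 ≤ T := by linarith
  have haT : (a : ℝ) * Real.log a ≤ Real.log T := by
    rw [Real.le_log_iff_exp_le (by linarith)]
    linarith
  have hLT : 0 < Real.log T := lt_of_lt_of_le (mul_pos (by linarith) (by linarith)) haT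
  have h1 := hjoint a T haR hT1 (by linarith)
  have h2 := hnear a T haA hT1 haT (Pn K s) (Pn_card K s) (fun x hx => by
    rw [ha]; exact Pn_le hx)
  refine (measure_mono ?_).trans ((measure_union_le _ _).trans ((add_le_add h1 h2).trans ?_))
  · rintro t ⟨ht, α, hα, hj⟩
    by_cases hG : nearP (Pn K s) T (ε₀ * Real.sqrt (Real.log a)) t
    · left
      refine ⟨ht, ?_⟩
      obtain ⟨α', hα', hP2⟩ := hP' α hα
      obtain ⟨Q, hQ, hQ1, hQ2⟩ := hA' α' hα'
      set ℓ := Real.log T / (2 * Real.pi) with hℓ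
      have hℓ0 : 0 < ℓ := by positivity
      have hrec := hP2 (fun x => ord (NZ t + 1 + x) * ℓ) 0 δ a (by simp) (fun x hx => by
        simp only [Polynomial.eval_zero, sub_zero]
        have e1 : ∑ l ∈ Finset.range (d + 1), α l * (ord (NZ t + 1 + (x + l)) * ℓ) =
            (∑ l ∈ Finset.range (d + 1), α l * ord (NZ t + 1 + (x + l))) * ℓ := by
          rw [Finset.sum_mul]
          exact Finset.sum_congr rfl fun l _ => by ring
        rw [e1, abs_mul, abs_of_pos hℓ0]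
        calc _ ≤ 2 * Real.pi * (cP * δ) / Real.log T * ℓ :=
              mul_le_mul_of_nonneg_right (hj x hx) hℓ0.le
          _ = cP * δ := by rw [hℓ]; field_simp)
      have hs0 : 1 ≤ Real.sqrt (Real.log a) := Real.one_le_sqrt.2 hla
      rw [ha]
      refine det_nr (D₀ := D₀) (e := ε₀ * Real.sqrt (Real.log a)) (ω := CA * δ)
        (by omega) (by positivity) (by rw [← ha]; linarith) Q hQ hQ1
        (fun x => ord (NZ t + 1 + x) * ℓ - x) (fun x => rfl) ?_ hG ?_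
      · intro x hx1 hx2
        have h3 := hQ2 (fun x => ord (NZ t + 1 + x) * ℓ - x) δ a (fun x hx => by
          exact hrec x hx) x hx1 (by rw [ha]; exact hx2)
        exact h3
      · rw [← ha]
        have hr0 : 0 < Real.sqrt (Real.log a) := by linarith
        have e1 : Real.pi / Real.sqrt (Real.log a) * (2 * (CA * δ) + (2 * D₀ + 1) *
            (4 * (ε₀ * Real.sqrt (Real.log a)))) =
            2 * Real.pi * (CA * δ) / Real.sqrt (Real.log a) + 4 * Real.pi * ((2 * D₀ + 1) * ε₀) := by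
          field_simp
        have e2 : CA * δ = 1 / 128 := by rw [hδ]; field_simp
        have e3 : (2 * (D₀ : ℝ) + 1) * ε₀ = 1 / 256 := by rw [hε₀]; field_simp
        rw [e1, e2, e3]
        have e4 : 2 * Real.pi * (1 / 128) / Real.sqrt (Real.log a) ≤ 2 * Real.pi * (1 / 128) :=
          div_le_self (by positivity) hs0
        linarith
    · right
      exact ⟨ht, hG⟩
  · rw [← ENNReal.ofReal_add (by positivity) (by positivity)]
    apply ENNReal.ofReal_le_ofReal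
    linarith

end Pool.Agent.P8H60.NR
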