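import Mathlib

/-!
# Statements of the packages of project NR (no linear recurrences in runs of zeta zeros)
-/

set_option autoImplicit false

namespace Pool.Agent.P8H60.NR

open Finset MeasureTheory

/-- A vector of `ℝ ^ K` as a sequence. -/
noncomputable def ex {K : ℕ} (z : Fin K → ℝ) (m : ℕ) : ℝ := if h : m < K then z ⟨m, h⟩ else 0

/-- The vectors of `ℝ ^ K` which satisfy, up to an error of `1 / 8`, some linear recurrence of order `D`,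
the largest coefficient being `1` in absolute value. -/
def FK (D K : ℕ) : Set (Fin K → ℝ) :=
  {z | ∃ R : ℕ → ℝ, (∀ i ≤ D, |R i| ≤ 1) ∧ (∃ i ≤ D, |R i| = 1) ∧
    ∀ k, k + D < K → |∑ i ∈ range (D + 1), R i * ex z (k + i)| ≤ 1 / 8}

/-- package A (algebra): decimation of recurrences, forwards and backwards -/
def S_A : Prop := ∀ D s : ℕ, 1 ≤ s → ∃ C : ℝ, 0 < C ∧ ∀ α : ℕ → ℝ, (∃ l ≤ D, 1 ≤ |α l|) →
  ∃ Q : ℕ → ℝ, (∀ i ≤ 2 * D, |Q i| ≤ 1) ∧ (∃ i ≤ 2 * D, |Q i| = 1) ∧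
    ∀ (y : ℕ → ℝ) (δ : ℝ) (J : ℕ), (∀ x ≤ J, |∑ l ∈ range (D + 1), α l * y (x + l)| ≤ δ) →
      ∀ x, D ≤ x → x + 2 * D * s ≤ J →
        |∑ i ∈ range (2 * D + 1), Q i * y (x + s * i)| ≤ C * δ ∧
        |∑ i ∈ range (2 * D + 1), Q i * y (x + s * (2 * D - i))| ≤ C * δ

/-- package P (algebra): multiplication of a recurrence by a power of `z - 1` -/
def S_P : Prop := ∀ d r : ℕ, 2 ≤ r → ∃ c : ℝ, 0 < c ∧ ∀ α : ℕ → ℝ, (∃ l ≤ d, 1 ≤ |α l|) →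
  ∃ α' : ℕ → ℝ, (∃ l ≤ d + r, 1 ≤ |α' l|) ∧
    ∀ (y : ℕ → ℝ) (P : Polynomial ℝ) (δ : ℝ) (J : ℕ), P.natDegree < r →
      (∀ x ≤ J + r, |∑ l ∈ range (d + 1), α l * y (x + l) - P.eval (x : ℝ)| ≤ c * δ) →
      ∀ x ≤ J, |∑ l ∈ range (d + r + 1), α' l * (y (x + l) - (x + l : ℕ))| ≤ δ

/-- package B (probability): the set `FK D K` has small Gaussian measure for large `K` -/
def S_B : Prop := ∀ (D : ℕ) (η : ℝ), 0 < η → ∃ K₀ : ℕ, ∀ K : ℕ, K₀ ≤ K →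
  (Measure.pi fun _ : Fin K => ProbabilityTheory.gaussianReal 0 1).real (FK D K) ≤ η

end Pool.Agent.P8H60.NR
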